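import Pool.Agent.TH463.UP.Union

/-!
The union bound for the exceptional multipliers in a set with an upper bound of Brun–Titchmarsh type.
-/

set_option autoImplicit false

open Finset Filter Topology

namespace Pool.Agent.TH463.UR

open Pool.Agent.H769R3 (X rep rep_nonneg rep_lt_one coe_rep rep_coe psi)
open Pool.Agent.TH463.UP (fourier_rat BadPair rat_sep Appr cP D D_lt cnt ld_norm)

/-- `P` has at most `K (1 + log b) ^ e G(N) / b` elements below `N` in each residue class modulo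
`b ≤ N`. -/
def BT (P : Set ℕ) (G : ℕ → ℝ) (K : ℝ) (e : ℕ) : Prop :=
  ∀ N b r : ℕ, 1 ≤ b → b ≤ N →
    (Nat.card {h : ℕ | h < N ∧ h ∈ P ∧ h % b = r} : ℝ) ≤ K * (1 + Real.log b) ^ e * G N / b

lemma card_setOf (N : ℕ) (Q : ℕ → Prop) [DecidablePred Q] :
    Nat.card {h : ℕ | h < N ∧ Q h} = ((range N).filter fun h => Q h).card := by
  rw [← Nat.card_eq_finsetCard]
  apply Nat.card_congr
  refine Equiv.subtypeEquivRight fun c => ?_
  simp [mem_filter]

/-- the polynomial factor -/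
noncomputable def pol (p e β : ℕ) : ℝ := (1 + (β + 1) * Real.log p) ^ e

lemma pol_nonneg {p : ℕ} (hp : 2 ≤ p) (e β : ℕ) : 0 ≤ pol p e β := by
  unfold pol
  have : 0 ≤ Real.log p := Real.log_nonneg (by exact_mod_cast (by omega : 1 ≤ p))
  positivity

open Classical in
lemma card_badPair {p : ℕ} (hp : 2 ≤ p) (δ : ℝ) (hδ : 0 ≤ δ) (β N : ℕ) (ρ : ℚ) (h1 : p ^ β ≤ ρ.den)
    (h1' : ρ.den < p ^ (β + 1)) (h2 : ρ.den ≤ N) {P : Set ℕ} {G : ℕ → ℝ} {K : ℝ} {e : ℕ}
    (hK : 0 ≤ K) (hG : 0 ≤ G N) (hP : BT P G K e) :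
    (((range N).filter (fun h => h ∈ P ∧ BadPair p δ β h ρ)).card : ℝ) ≤
      4 * K * pol p e β * G N * Real.exp (-(δ ^ 2 / 8) * β) := by
  haveI : NeZero ρ.den := ⟨ρ.den_nz⟩
  have hunit : IsUnit (ρ.num : ZMod ρ.den) := by
    have hc : IsCoprime ρ.num (ρ.den : ℤ) := Int.isCoprime_iff_gcd_eq_one.2 (by
      have := ρ.reduced
      rw [Nat.Coprime] at this
      simpa [Int.gcd] using this)
    exact (ZMod.coe_int_isUnit_iff_isCoprime ρ.num ρ.den).2 hc.symm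
  obtain ⟨v, hv⟩ := hunit
  have hld := ld_norm (q := ρ.den) hp β h1 δ hδ
  set B := univ.filter (fun r : ZMod ρ.den =>
      δ * β < ‖∑ j ∈ range β, psi ((p : ZMod ρ.den) ^ j * r)‖) with hB
  have hden : (1 : ℝ) ≤ ρ.den := by exact_mod_cast ρ.den_pos
  have hsub : (range N).filter (fun h => h ∈ P ∧ BadPair p δ β h ρ) ⊆
      B.biUnion fun r => (range N).filter fun h => h ∈ P ∧
        h % ρ.den = (r * ((v⁻¹ : (ZMod ρ.den)ˣ) : ZMod ρ.den)).val := by
    intro h hh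
    rw [mem_filter] at hh
    obtain ⟨h3, h4, h5⟩ := hh
    rw [mem_biUnion]
    refine ⟨(h : ZMod ρ.den) * (ρ.num : ZMod ρ.den), ?_, ?_⟩
    · rw [hB, mem_filter]
      refine ⟨mem_univ _, ?_⟩
      unfold BadPair at h5
      rw [sum_congr rfl (fun j _ => fourier_rat p ρ h j)] at h5
      exact h5
    · refine mem_filter.2 ⟨h3, h4, ?_⟩
      rw [← hv, mul_assoc, Units.mul_inv, mul_one, ZMod.val_natCast]
  have h6 : (((range N).filter (fun h => h ∈ P ∧ BadPair p δ β h ρ)).card : ℝ) ≤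
      ∑ r ∈ B, (((range N).filter fun h => h ∈ P ∧
        h % ρ.den = (r * ((v⁻¹ : (ZMod ρ.den)ˣ) : ZMod ρ.den)).val).card : ℝ) := by
    exact_mod_cast (card_le_card hsub).trans card_biUnion_le
  have hlog : (1 + Real.log ρ.den) ^ e ≤ pol p e β := by
    unfold pol
    have h7 : Real.log ρ.den ≤ (β + 1) * Real.log p := by
      have h8 : (ρ.den : ℝ) ≤ (p : ℝ) ^ (β + 1) := by exact_mod_cast h1'.le
      refine (Real.log_le_log (by linarith) h8).trans (le_of_eq ?_)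
      rw [Real.log_pow]
      push_cast
      ring
    have h9 : 0 ≤ Real.log ρ.den := Real.log_nonneg hden
    exact pow_le_pow_left₀ (by linarith) (by linarith) _
  have h7 : ∀ r ∈ B, (((range N).filter fun h => h ∈ P ∧
        h % ρ.den = (r * ((v⁻¹ : (ZMod ρ.den)ˣ) : ZMod ρ.den)).val).card : ℝ) ≤
        K * pol p e β * G N / ρ.den := by
    intro r _
    have h8 := hP N ρ.den (r * ((v⁻¹ : (ZMod ρ.den)ˣ) : ZMod ρ.den)).val ρ.den_pos h2
    rw [card_setOf N (fun h => h ∈ P ∧ h % ρ.den = _)] at h8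
    refine le_trans (le_of_eq ?_) (h8.trans ?_)
    · congr!
    apply div_le_div_of_nonneg_right _ (by linarith)
    exact mul_le_mul_of_nonneg_right (mul_le_mul_of_nonneg_left hlog hK) hG
  refine h6.trans ((sum_le_sum h7).trans ?_)
  rw [sum_const, nsmul_eq_mul]
  have hpol := pol_nonneg hp e β
  have h8 : 0 ≤ K * pol p e β * G N / ρ.den := by positivity
  refine (mul_le_mul_of_nonneg_right hld h8).trans (le_of_eq ?_)
  field_simp

open Classical in
lemma exc_card {p : ℕ} (hp : 2 ≤ p) (δ : ℝ) (hδ : 0 ≤ δ) (β N : ℕ) (A : Set X)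
    {P : Set ℕ} {G : ℕ → ℝ} {K : ℝ} {e : ℕ}
    (hK : 0 ≤ K) (hG : 0 ≤ G N) (hP : BT P G K e) :
    (((range N).filter (fun h => h ∈ P ∧ ∃ ρ : ℚ, Appr p A β N ρ ∧ BadPair p δ β h ρ)).card : ℝ) ≤
      cP p * cnt p (2 * β + 2) A * (4 * K * pol p e β * G N * Real.exp (-(δ ^ 2 / 8) * β)) := by
  have hpR : (2 : ℝ) ≤ p := by exact_mod_cast hp
  have hp0 : (0 : ℝ) < p := by linarith
  have hpol := pol_nonneg hp e β
  set R := 2 * β + 2 with hR
  set L : ℤ := (p : ℤ) ^ 2 + 1 with hL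
  set S : Finset ℕ := (range (p ^ R)).filter (fun s => ∃ x ∈ A, D p R x = s) with hS
  set SS : Finset ℤ := (S ×ˢ Finset.Icc (-L) L).image (fun c => (c.1 : ℤ) + c.2) with hSS
  have hSSc : SS.card ≤ cP p * cnt p R A := by
    refine card_image_le.trans ?_
    rw [card_product, Int.card_Icc, mul_comm]
    refine Nat.mul_le_mul (le_of_eq ?_) le_rfl
    have : L + 1 - -L = ((cP p : ℕ) : ℤ) := by
      rw [hL]
      unfold cP
      push_cast
      ring
    rw [this, Int.toNat_natCast]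
  set E : ℤ → Finset ℕ := fun σ => (range N).filter
    (fun h => h ∈ P ∧ ∃ ρ : ℚ, (Appr p A β N ρ ∧ ⌊(p : ℝ) ^ R * ρ⌋ = σ) ∧ BadPair p δ β h ρ) with hE
  have hEc : ∀ σ, ((E σ).card : ℝ) ≤ 4 * K * pol p e β * G N * Real.exp (-(δ ^ 2 / 8) * β) := by
    intro σ
    by_cases hex : ∃ ρ : ℚ, Appr p A β N ρ ∧ ⌊(p : ℝ) ^ R * ρ⌋ = σ
    · obtain ⟨ρ₀, hρ₀, hf₀⟩ := hex
      refine le_trans ?_ (card_badPair hp δ hδ β N ρ₀ hρ₀.1 hρ₀.2.1 hρ₀.2.2.1 hK hG hP)
      have : E σ ⊆ (range N).filter (fun h => h ∈ P ∧ BadPair p δ β h ρ₀) := by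
        intro h hh
        rw [hE, mem_filter] at hh
        obtain ⟨h1, h0, ρ, ⟨h2, h3⟩, h4⟩ := hh
        have : ρ = ρ₀ := rat_sep h2.2.1 hρ₀.2.1 (by rw [← hR, h3, hf₀])
        rw [this] at h4
        exact mem_filter.2 ⟨h1, h0, h4⟩
      exact_mod_cast card_le_card this
    · have : E σ = ∅ := by
        rw [hE, filter_eq_empty_iff]
        intro h _ hcon
        obtain ⟨_, ρ, h2, _⟩ := hcon
        exact hex ⟨ρ, h2⟩
      rw [this]
      simp only [card_empty, Nat.cast_zero]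
      positivity
  have hsub : (range N).filter (fun h => h ∈ P ∧ ∃ ρ : ℚ, Appr p A β N ρ ∧ BadPair p δ β h ρ) ⊆
      SS.biUnion E := by
    intro h hh
    rw [mem_filter] at hh
    obtain ⟨h1, h0, ρ, hρ, hbad⟩ := hh
    rw [mem_biUnion]
    refine ⟨⌊(p : ℝ) ^ R * ρ⌋, ?_, ?_⟩
    · obtain ⟨hd1, hd2, hd3, x, hx, hxρ⟩ := hρ
      rw [hSS, mem_image]
      refine ⟨(D p R x, ⌊(p : ℝ) ^ R * ρ⌋ - (D p R x : ℤ)), ?_, by simp⟩
      rw [mem_product]
      refine ⟨mem_filter.2 ⟨mem_range.2 (D_lt hp _ _), x, hx, rfl⟩, ?_⟩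
      rw [mem_Icc]
      have hq : (p : ℝ) ^ β ≤ ρ.den := by exact_mod_cast hd1
      have hN : (ρ.den : ℝ) ≤ N := by exact_mod_cast hd3
      have hpβ : (0 : ℝ) < (p : ℝ) ^ β := by positivity
      have hclose : |(p : ℝ) ^ R * rep x - (p : ℝ) ^ R * ρ| ≤ (p : ℝ) ^ 2 := by
        rw [← mul_sub, abs_mul, abs_of_pos (by positivity : (0 : ℝ) < (p : ℝ) ^ R)]
        have h5 : (p : ℝ) ^ R = (p : ℝ) ^ 2 * ((p : ℝ) ^ β * (p : ℝ) ^ β) := by
          rw [hR, pow_add, two_mul, pow_add]; ring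
        have h6 : (0 : ℝ) < (N + 1) * ρ.den := by positivity
        calc (p : ℝ) ^ R * |rep x - ρ| ≤ (p : ℝ) ^ R * (1 / ((N + 1) * ρ.den)) :=
              mul_le_mul_of_nonneg_left hxρ (by positivity)
          _ ≤ (p : ℝ) ^ 2 := by
            rw [mul_one_div, div_le_iff₀ h6, h5]
            have h7 : (p : ℝ) ^ β * (p : ℝ) ^ β ≤ (N + 1) * ρ.den :=
              mul_le_mul (by linarith) hq hpβ.le (by positivity)
            exact mul_le_mul_of_nonneg_left h7 (by positivity)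
      rw [abs_le] at hclose
      have hD : (D p R x : ℤ) = ⌊(p : ℝ) ^ R * rep x⌋ := by
        unfold D
        rw [Int.natCast_floor_eq_floor (mul_nonneg (by positivity) (rep_nonneg x))]
      have f1 := Int.floor_le ((p : ℝ) ^ R * rep x)
      have f2 := Int.lt_floor_add_one ((p : ℝ) ^ R * rep x)
      have f3 := Int.floor_le ((p : ℝ) ^ R * (ρ : ℝ))
      have f4 := Int.lt_floor_add_one ((p : ℝ) ^ R * (ρ : ℝ))
      rw [hD]
      have hKR : ((L : ℤ) : ℝ) = (p : ℝ) ^ 2 + 1 := by rw [hL]; push_cast; ring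
      constructor
      · have : ((⌊(p : ℝ) ^ R * rep x⌋ : ℤ) : ℝ) <
            ((⌊(p : ℝ) ^ R * (ρ : ℝ)⌋ + L + 1 : ℤ) : ℝ) := by
          push_cast
          rw [hKR]
          linarith [hclose.2]
        have := Int.cast_lt.1 this
        omega
      · have : ((⌊(p : ℝ) ^ R * (ρ : ℝ)⌋ : ℤ) : ℝ) <
            ((⌊(p : ℝ) ^ R * rep x⌋ + L + 1 : ℤ) : ℝ) := by
          push_cast
          rw [hKR]
          linarith [hclose.1]
        have := Int.cast_lt.1 this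
        omega
    · rw [hE, mem_filter]
      exact ⟨h1, h0, ρ, ⟨hρ, rfl⟩, hbad⟩
  have h1 : (((range N).filter (fun h => h ∈ P ∧ ∃ ρ : ℚ, Appr p A β N ρ ∧ BadPair p δ β h ρ)).card
      : ℝ) ≤ ∑ σ ∈ SS, ((E σ).card : ℝ) := by
    exact_mod_cast (card_le_card hsub).trans card_biUnion_le
  refine h1.trans ((sum_le_sum fun σ _ => hEc σ).trans ?_)
  rw [sum_const, nsmul_eq_mul]
  have h2 : (SS.card : ℝ) ≤ cP p * cnt p R A := by exact_mod_cast hSSc
  have h3 : (0 : ℝ) ≤ 4 * K * pol p e β * G N * Real.exp (-(δ ^ 2 / 8) * β) := by positivity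
  exact mul_le_mul_of_nonneg_right h2 h3

end Pool.Agent.TH463.UR
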