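import Pool.Agent.TH463.UR.Mix

/-!
Dense orbits and domination of Lebesgue measure along an infinite set of multipliers.
-/

set_option autoImplicit false

open Finset Filter Topology MeasureTheory
open scoped ENNReal

namespace Pool.Agent.TH463.UR

open Pool.Agent.H769R3 (X)

/-- the images of the measures absolutely continuous with respect to `μ` tend to Lebesgue measure
along `S` -/
def Mixing (S : Set ℕ) (μ : Measure X) : Prop :=
  ∀ ν : Measure X, IsProbabilityMeasure ν → ν ≪ μ → ∀ f : C(X, ℝ),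
    Tendsto (fun c : ℕ => ∫ x, f (c • x) ∂ν) (atTop ⊓ 𝓟 S) (𝓝 (∫ x, f x))

lemma Mixing.mono {S C : Set ℕ} {μ : Measure X} (h : Mixing C μ) (hS : S ⊆ C) : Mixing S μ :=
  fun ν hν hνμ f => (h ν hν hνμ f).mono_left (inf_le_inf_left _ (principal_mono.2 hS))

lemma neBot_inf {S : Set ℕ} (hS : S.Infinite) : (atTop ⊓ 𝓟 S : Filter ℕ).NeBot := by
  rw [← Filter.frequently_mem_iff_neBot]
  exact Nat.frequently_atTop_iff_infinite.2 hS

/-- a bump function -/
lemma exists_bump {U : Set X} (hU : IsOpen U) (hne : U.Nonempty) :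
    ∃ f : C(X, ℝ), (∀ x, 0 ≤ f x) ∧ (∀ x, x ∉ U → f x = 0) ∧ 0 < ∫ x, f x := by
  obtain ⟨y, hy⟩ := hne
  obtain ⟨r, hr, hrU⟩ := Metric.isOpen_iff.1 hU y hy
  have hc : Continuous fun x : X => max 0 (r - dist x y) := by fun_prop
  refine ⟨⟨_, hc⟩, fun x => le_max_left _ _, fun x hx => ?_, ?_⟩
  · have h1 : r ≤ dist x y := by
      by_contra hcon
      rw [not_le] at hcon
      exact hx (hrU hcon)
    exact max_eq_left (by linarith)
  · apply hc.integral_pos_of_hasCompactSupport_nonneg_nonzero (x := y)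
      (HasCompactSupport.of_compactSpace _) (fun x => le_max_left _ _)
    rw [dist_self, sub_zero, max_eq_right hr.le]
    exact hr.ne'

theorem ae_dense {S : Set ℕ} (hS : S.Infinite) {μ : Measure X} [IsProbabilityMeasure μ]
    (h : Mixing S μ) : ∀ᵐ x ∂μ, Dense {y : X | ∃ c ∈ S, y = c • x} := by
  have hnb := neBot_inf hS
  set B := TopologicalSpace.countableBasis X with hB
  have hcount : B.Countable := TopologicalSpace.countable_countableBasis X
  have hbasis := TopologicalSpace.isBasis_countableBasis X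
  have key : ∀ U ∈ B, ∀ᵐ x ∂μ, ∃ c ∈ S, c • x ∈ U := by
    intro U hU
    have hUo : IsOpen U := hbasis.isOpen hU
    have hUne : U.Nonempty := TopologicalSpace.nonempty_of_mem_countableBasis hU
    obtain ⟨f, hf0, hfU, hfpos⟩ := exists_bump hUo hUne
    set A : Set X := ⋂ c ∈ S, (fun x : X => c • x) ⁻¹' Uᶜ with hA
    have hAm : MeasurableSet A := by
      refine MeasurableSet.biInter S.to_countable fun c _ => ?_
      have : Measurable (fun x : X => c • x) := by fun_prop
      exact this hUo.measurableSet.compl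
    have hA0 : μ A = 0 := by
      by_contra hne
      have hprob : IsProbabilityMeasure (ProbabilityTheory.cond μ A) :=
        ProbabilityTheory.cond_isProbabilityMeasure hne
      have h1 := h (ProbabilityTheory.cond μ A) hprob ProbabilityTheory.cond_absolutelyContinuous f
      have h2 : ∀ c ∈ S, ∫ x, f (c • x) ∂(ProbabilityTheory.cond μ A) = 0 := by
        intro c hc
        apply integral_eq_zero_of_ae
        have h3 : ∀ᵐ x ∂(ProbabilityTheory.cond μ A), x ∈ A := by
          have h4 : (ProbabilityTheory.cond μ A) A = 1 :=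
            ProbabilityTheory.cond_apply_self hne (measure_ne_top μ A)
          rw [← prob_compl_eq_zero_iff hAm] at h4
          exact h4
        filter_upwards [h3] with x hx
        have h4 : c • x ∉ U := by
          rw [hA] at hx
          simp only [Set.mem_iInter] at hx
          exact hx c hc
        exact hfU _ h4
      have h3 : Tendsto (fun c : ℕ => ∫ x, f (c • x) ∂(ProbabilityTheory.cond μ A))
          (atTop ⊓ 𝓟 S) (𝓝 0) := by
        refine (tendsto_const_nhds (x := (0 : ℝ))).congr' ?_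
        have h4 : ∀ᶠ c : ℕ in atTop ⊓ 𝓟 S, c ∈ S :=
          eventually_inf_principal.2 (Eventually.of_forall fun _ h => h)
        filter_upwards [h4] with c hc
        exact (h2 c hc).symm
      have h4 := tendsto_nhds_unique h1 h3
      exact hfpos.ne' h4
    have h5 : ∀ᵐ x ∂μ, x ∉ A := measure_eq_zero_iff_ae_notMem.1 hA0
    filter_upwards [h5] with x hx
    rw [hA] at hx
    simp only [Set.mem_iInter, not_forall, Set.mem_preimage, Set.mem_compl_iff, not_not] at hx
    obtain ⟨c, hc, hcU⟩ := hx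
    exact ⟨c, hc, hcU⟩
  have hall : ∀ᵐ x ∂μ, ∀ U ∈ B, ∃ c ∈ S, c • x ∈ U := (ae_ball_iff hcount).2 key
  filter_upwards [hall] with x hx
  rw [hbasis.dense_iff]
  intro U hU _
  obtain ⟨c, hc, hcU⟩ := hx U hU
  exact ⟨c • x, hcU, c, hc, rfl⟩

/-- comparison of two measures by continuous functions -/
lemma le_of_cont {μ ν : Measure X} [IsFiniteMeasure μ] [IsFiniteMeasure ν]
    (h : ∀ f : C(X, ℝ), (∀ x, 0 ≤ f x) → ∫ x, f x ∂μ ≤ ∫ x, f x ∂ν) : μ ≤ ν := by
  have hclosed : ∀ F : Set X, IsClosed F → μ F ≤ ν F := by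
    intro F hF
    have hpos : ∀ n : ℕ, (0 : ℝ) < 1 / ((n : ℝ) + 1) := fun n => by positivity
    have t1 := tendsto_lintegral_thickenedIndicator_of_isClosed μ hF hpos
      tendsto_one_div_add_atTop_nhds_zero_nat
    have t2 := tendsto_lintegral_thickenedIndicator_of_isClosed ν hF hpos
      tendsto_one_div_add_atTop_nhds_zero_nat
    refine le_of_tendsto_of_tendsto' t1 t2 fun n => ?_
    set g := thickenedIndicator (hpos n) F with hg
    have hgc : Continuous fun x : X => (g x : ℝ) := NNReal.continuous_coe.comp g.continuous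
    have h1 := h ⟨_, hgc⟩ fun x => NNReal.coe_nonneg _
    have e : ∀ ρ : Measure X, IsFiniteMeasure ρ → ∫⁻ x, (g x : ℝ≥0∞) ∂ρ =
        ENNReal.ofReal (∫ x, (g x : ℝ) ∂ρ) := by
      intro ρ _
      rw [ofReal_integral_eq_lintegral_ofReal (integrable_cont ρ hgc)
        (Eventually.of_forall fun x => NNReal.coe_nonneg _)]
      congr 1
      funext x
      rw [ENNReal.ofReal_coe_nnreal]
    change ∫⁻ x, (g x : ℝ≥0∞) ∂μ ≤ ∫⁻ x, (g x : ℝ≥0∞) ∂ν
    rw [e μ inferInstance, e ν inferInstance]
    exact ENNReal.ofReal_le_ofReal h1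
  rw [Measure.le_iff]
  intro A hA
  rw [hA.measure_eq_iSup_isClosed_of_ne_top (measure_ne_top μ A)]
  refine iSup₂_le fun F hFA => iSup_le fun hF => (hclosed F hF).trans (measure_mono hFA)

theorem dominate {S : Set ℕ} (hS : S.Infinite) {μ ν : Measure X} [IsProbabilityMeasure μ]
    [IsProbabilityMeasure ν] (h : Mixing S μ)
    (hinv : ∀ c ∈ S, MeasurePreserving (fun x : X => c • x) ν ν) (hns : ¬ ν ⟂ₘ μ) :
    ∃ κ : ℝ≥0∞, 0 < κ ∧ κ • (volume : Measure X) ≤ ν := by
  have hleb : ν.HaveLebesgueDecomposition μ := Measure.haveLebesgueDecomposition_of_finiteMeasure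
  have hnb := neBot_inf hS
  have hvol : IsProbabilityMeasure (volume : Measure X) := ⟨UnitAddCircle.measure_univ⟩
  set νa : Measure X := μ.withDensity (ν.rnDeriv μ) with hνa
  have hle : νa ≤ ν := Measure.withDensity_rnDeriv_le ν μ
  have hac : νa ≪ μ := withDensity_absolutelyContinuous μ _
  have hfin : IsFiniteMeasure νa := isFiniteMeasure_of_le ν hle
  set κ := νa Set.univ with hκ
  have hκtop : κ ≠ ∞ := measure_ne_top νa _
  have hκ0 : κ ≠ 0 := by
    intro h0
    apply hns
    have h1 : νa = 0 := Measure.measure_univ_eq_zero.1 h0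
    have h2 := ν.haveLebesgueDecomposition_add μ
    rw [← hνa, h1, add_zero] at h2
    rw [h2]
    exact Measure.mutuallySingular_singularPart ν μ
  refine ⟨κ, pos_iff_ne_zero.2 hκ0, ?_⟩
  set ν' : Measure X := κ⁻¹ • νa with hν'
  have hprob : IsProbabilityMeasure ν' := by
    constructor
    rw [hν', Measure.smul_apply, smul_eq_mul, ← hκ, ENNReal.inv_mul_cancel hκ0 hκtop]
  have hac' : ν' ≪ μ := (Measure.smul_absolutelyContinuous).trans hac
  have hκR : 0 < κ.toReal := ENNReal.toReal_pos hκ0 hκtop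
  have hfin2 : IsFiniteMeasure (κ • (volume : Measure X)) := by
    constructor
    rw [Measure.smul_apply, smul_eq_mul, measure_univ, mul_one]
    exact lt_top_iff_ne_top.2 hκtop
  apply le_of_cont
  intro f hf
  have hcont : ∀ c : ℕ, Continuous fun x : X => f (c • x) := fun c =>
    f.continuous.comp (by fun_prop)
  have h1 := (h ν' hprob hac' f).const_mul κ.toReal
  have h2 : ∀ c ∈ S, κ.toReal * ∫ x, f (c • x) ∂ν' ≤ ∫ x, f x ∂ν := by
    intro c hc
    have e1 : κ.toReal * ∫ x, f (c • x) ∂ν' = ∫ x, f (c • x) ∂νa := by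
      rw [hν', integral_smul_measure, smul_eq_mul, ← mul_assoc, ENNReal.toReal_inv,
        mul_inv_cancel₀ hκR.ne', one_mul]
    have e2 : ∫ x, f (c • x) ∂ν = ∫ x, f x ∂ν := by
      have h4 := (hinv c hc).map_eq
      conv_rhs => rw [← h4]
      rw [integral_map (hinv c hc).measurable.aemeasurable f.continuous.aestronglyMeasurable]
    rw [e1, ← e2]
    exact integral_mono_measure hle (Eventually.of_forall fun x => hf _)
      (integrable_cont ν (hcont c))
  have h3 : κ.toReal * ∫ x : X, f x ≤ ∫ x, f x ∂ν := by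
    refine le_of_tendsto h1 ?_
    have h4 : ∀ᶠ c : ℕ in atTop ⊓ 𝓟 S, c ∈ S :=
      eventually_inf_principal.2 (Eventually.of_forall fun _ h => h)
    filter_upwards [h4] with c hc
    exact h2 c hc
  rw [integral_smul_measure, smul_eq_mul]
  exact h3

end Pool.Agent.TH463.UR
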