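import Pool.Agent.TH463.UR.Bad
import Pool.Agent.TH463.UQ.Exc

/-!
The exceptional multipliers for a weight in a set with an upper bound of Brun–Titchmarsh type.
-/

set_option autoImplicit false

open Finset Filter Topology
open scoped ENNReal

namespace Pool.Agent.TH463.UR

open Pool.Agent.H769R3 (X)
open Pool.Agent.TH463.UP (D D_lt D_add cnt cnt_le_one Appr BadPair cP nx lt_nx)
open Pool.Agent.TH463.UQ (BW WB mB mB_zero W Z Z_W Norm Exc ES mem_ES Level tends)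

open Classical in
/-- few multipliers are bad for a given word -/
lemma card_bad {p : ℕ} (hp : 2 ≤ p) {δ : ℝ} (hδ : 0 ≤ δ) (β N s : ℕ) {P : Set ℕ} {G : ℕ → ℝ}
    {K : ℝ} {e : ℕ} (hK : 0 ≤ K) (hG : 0 ≤ G N) (hP : BT P G K e) :
    (((range N).filter fun h => h ∈ P ∧ s ∈ BW p δ β N h).card : ℝ) ≤
      cP p * (4 * K * pol p e β * G N * Real.exp (-(δ ^ 2 / 8) * β)) := by
  have h1 := exc_card hp δ hδ β N {x | D p (2 * β + 2) x = s} hK hG hP
  have h2 : cnt p (2 * β + 2) {x : X | D p (2 * β + 2) x = s} ≤ 1 := cnt_le_one fun x hx => hx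
  have h3 : (cnt p (2 * β + 2) {x : X | D p (2 * β + 2) x = s} : ℝ) ≤ 1 := by exact_mod_cast h2
  have hpol := pol_nonneg hp e β
  have hpos : (0 : ℝ) ≤ 4 * K * pol p e β * G N * Real.exp (-(δ ^ 2 / 8) * β) := by positivity
  have e : (range N).filter (fun h => h ∈ P ∧ s ∈ BW p δ β N h) = (range N).filter (fun h =>
      h ∈ P ∧ ∃ ρ : ℚ, Appr p {x | D p (2 * β + 2) x = s} β N ρ ∧ BadPair p δ β h ρ) := by
    apply filter_congr
    intro h _
    rfl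
  rw [e]
  refine h1.trans ?_
  apply mul_le_mul_of_nonneg_right _ hpos
  calc (cP p : ℝ) * (cnt p (2 * β + 2) {x : X | D p (2 * β + 2) x = s} : ℝ) ≤
        cP p * 1 := mul_le_mul_of_nonneg_left h3 (by positivity)
    _ = _ := mul_one _

open Classical in
/-- the mean weight of the bad words -/
lemma sum_mB {p : ℕ} (hp : 2 ≤ p) {k : ℕ} {w : ℕ → ℝ} (hw : Norm p k w) {δ : ℝ} (hδ : 0 ≤ δ)
    (β N : ℕ) {P : Set ℕ} {G : ℕ → ℝ} {K : ℝ} {e : ℕ} (hK : 0 ≤ K) (hG : 0 ≤ G N)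
    (hP : BT P G K e) : ∑ h ∈ (range N).filter (fun h => h ∈ P), mB p k w δ β N h ≤
      (p : ℝ≥0∞) ^ k * ENNReal.ofReal
        (cP p * (4 * K * pol p e β * G N * Real.exp (-(δ ^ 2 / 8) * β))) := by
  set R := 2 * β + 2 with hR
  set q : ℕ → ℝ≥0∞ := fun s => ⨆ x : X, ⨆ _ : D p R x = s, W p k w R x with hq
  have h1 : ∀ h, mB p k w δ β N h ≤ ∑ s ∈ range (p ^ R), if s ∈ BW p δ β N h then q s else 0 := by
    intro h
    unfold mB Z
    refine sum_le_sum fun s _ => iSup₂_le fun x hx => ?_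
    unfold WB
    rw [← hR, hx]
    split_ifs with hs
    · exact le_iSup₂ (f := fun (x : X) (_ : D p R x = s) => W p k w R x) x hx
    · exact le_rfl
  refine (sum_le_sum fun h _ => h1 h).trans ?_
  rw [sum_comm]
  have h2 : ∀ s ∈ range (p ^ R), (∑ h ∈ (range N).filter (fun h => h ∈ P),
      if s ∈ BW p δ β N h then q s else 0) ≤
      q s * ENNReal.ofReal (cP p * (4 * K * pol p e β * G N * Real.exp (-(δ ^ 2 / 8) * β))) := by
    intro s _
    rw [← sum_filter, sum_const, nsmul_eq_mul, mul_comm, filter_filter]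
    apply mul_le_mul' le_rfl
    rw [← ENNReal.ofReal_natCast]
    exact ENNReal.ofReal_le_ofReal (card_bad hp hδ β N s hK hG hP)
  refine (sum_le_sum h2).trans ?_
  rw [← sum_mul]
  exact mul_le_mul' (Z_W hp hw R) le_rfl

open Classical in
/-- few multipliers have heavy bad words -/
lemma markov {p : ℕ} (hp : 2 ≤ p) {k : ℕ} {w : ℕ → ℝ} (hw : Norm p k w) {δ : ℝ} (hδ : 0 ≤ δ)
    (β N : ℕ) {P : Set ℕ} {G : ℕ → ℝ} {K : ℝ} {e : ℕ} (hK : 0 ≤ K) (hG : 0 ≤ G N)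
    (hP : BT P G K e) :
    (((range N).filter fun h => h ∈ P ∧ ENNReal.ofReal (Real.exp (-(δ ^ 2 / 16) * β)) <
      mB p k w δ β N h).card : ℝ) ≤ (4 * K * cP p * (p : ℝ) ^ k) * G N *
        (pol p e β * Real.exp (-(δ ^ 2 / 16)) ^ β) := by
  set F := (range N).filter fun h => h ∈ P ∧ ENNReal.ofReal (Real.exp (-(δ ^ 2 / 16) * β)) <
      mB p k w δ β N h with hF
  have hpol := pol_nonneg hp e β
  have h1 : (F.card : ℝ≥0∞) * ENNReal.ofReal (Real.exp (-(δ ^ 2 / 16) * β)) ≤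
      (p : ℝ≥0∞) ^ k * ENNReal.ofReal
        (cP p * (4 * K * pol p e β * G N * Real.exp (-(δ ^ 2 / 8) * β))) := by
    refine le_trans ?_ (sum_mB hp hw hδ β N hK hG hP)
    rw [← nsmul_eq_mul, ← sum_const]
    refine (sum_le_sum fun h hh => ?_).trans (sum_le_sum_of_subset (t := (range N).filter
      (fun h => h ∈ P)) fun h hh => ?_)
    · exact (mem_filter.1 hh).2.2.le
    · exact mem_filter.2 ⟨(mem_filter.1 hh).1, (mem_filter.1 hh).2.1⟩
  have h2 : ENNReal.ofReal ((F.card : ℝ) * Real.exp (-(δ ^ 2 / 16) * β)) ≤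
      ENNReal.ofReal ((p : ℝ) ^ k * (cP p * (4 * K * pol p e β * G N *
        Real.exp (-(δ ^ 2 / 8) * β)))) := by
    rw [ENNReal.ofReal_mul (Nat.cast_nonneg _), ENNReal.ofReal_mul (by positivity),
      ENNReal.ofReal_natCast, ENNReal.ofReal_pow (Nat.cast_nonneg _), ENNReal.ofReal_natCast]
    exact h1
  rw [ENNReal.ofReal_le_ofReal_iff (by positivity)] at h2
  have e1 : Real.exp (-(δ ^ 2 / 8) * β) = Real.exp (-(δ ^ 2 / 16) * β) * Real.exp (-(δ ^ 2 / 16)) ^ β := by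
    rw [← Real.exp_nat_mul, ← Real.exp_add]
    congr 1
    ring
  rw [e1] at h2
  have hpos : 0 < Real.exp (-(δ ^ 2 / 16) * β) := Real.exp_pos _
  refine le_of_mul_le_mul_right (h2.trans (le_of_eq ?_)) hpos
  ring

/-- a polynomial factor does not matter -/
lemma exists_pol {p : ℕ} (hp : 2 ≤ p) (e : ℕ) {θ : ℝ} (hθ0 : 0 < θ) (hθ1 : θ < 1) :
    ∃ A : ℝ, 0 ≤ A ∧ ∀ β : ℕ, pol p e β * (θ ^ 2) ^ β ≤ A * θ ^ β := by
  have hL : 0 ≤ Real.log p := Real.log_nonneg (by exact_mod_cast (by omega : 1 ≤ p))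
  have h1 : Tendsto (fun n : ℕ => (n : ℝ) ^ e * θ ^ n) atTop (𝓝 0) :=
    tendsto_pow_const_mul_const_pow_of_abs_lt_one e (by rw [abs_of_pos hθ0]; exact hθ1)
  obtain ⟨B, hB⟩ := h1.bddAbove_range
  have hB' : ∀ n : ℕ, (n : ℝ) ^ e * θ ^ n ≤ B := fun n => hB ⟨n, rfl⟩
  have hB0 : 0 ≤ B := le_trans (by positivity) (hB' 1)
  refine ⟨(1 + Real.log p) ^ e * (B / θ), by positivity, fun β => ?_⟩
  have h2 : pol p e β ≤ (1 + Real.log p) ^ e * ((β + 1 : ℕ) : ℝ) ^ e := by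
    unfold pol
    rw [← mul_pow]
    apply pow_le_pow_left₀ (by positivity)
    push_cast
    have h3 : (0 : ℝ) ≤ β := Nat.cast_nonneg β
    nlinarith
  have h3 : ((β + 1 : ℕ) : ℝ) ^ e * θ ^ β ≤ B / θ := by
    rw [le_div_iff₀ hθ0]
    have h4 := hB' (β + 1)
    rw [pow_succ θ] at h4
    linarith
  calc pol p e β * (θ ^ 2) ^ β ≤ ((1 + Real.log p) ^ e * ((β + 1 : ℕ) : ℝ) ^ e) * (θ ^ 2) ^ β :=
        mul_le_mul_of_nonneg_right h2 (by positivity)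
    _ = (1 + Real.log p) ^ e * (((β + 1 : ℕ) : ℝ) ^ e * θ ^ β) * θ ^ β := by ring
    _ ≤ (1 + Real.log p) ^ e * (B / θ) * θ ^ β := by
      apply mul_le_mul_of_nonneg_right _ (by positivity)
      exact mul_le_mul_of_nonneg_left h3 (by positivity)

open Classical in
lemma exc_card_le {p : ℕ} (hp : 2 ≤ p) {k : ℕ} {w : ℕ → ℝ} (hw : Norm p k w) {δ : ℝ}
    {P : Set ℕ} {G : ℕ → ℝ} {K : ℝ} {e : ℕ} (hK : 0 ≤ K) (hG : ∀ N, 0 ≤ G N)
    (hP : BT P G K e) {A : ℝ} (hδ : 0 < δ)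
    (hA : ∀ β : ℕ, pol p e β * (Real.exp (-(δ ^ 2 / 32)) ^ 2) ^ β ≤ A * Real.exp (-(δ ^ 2 / 32)) ^ β)
    (β₀ N : ℕ) : (((range N).filter fun h => h ∈ P ∧ h ∈ Exc p k w δ β₀ N).card : ℝ) ≤
      ((4 * K * cP p * (p : ℝ) ^ k * A) *
        (Real.exp (-(δ ^ 2 / 32)) ^ β₀ / (1 - Real.exp (-(δ ^ 2 / 32))))) * G N := by
  set θ := Real.exp (-(δ ^ 2 / 32)) with hθ
  have hθ0 : 0 < θ := Real.exp_pos _
  have hθ1 : θ < 1 := by
    rw [hθ, Real.exp_lt_one_iff]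
    have : 0 < δ ^ 2 := by positivity
    linarith
  have hθ2 : Real.exp (-(δ ^ 2 / 16)) = θ ^ 2 := by
    rw [hθ, ← Real.exp_nat_mul]
    congr 1
    push_cast
    ring
  have hA0 : 0 ≤ A := by
    have h1 := hA 0
    simp only [pow_zero, mul_one] at h1
    exact (pol_nonneg hp e 0).trans h1
  have hsub : (range N).filter (fun h => h ∈ P ∧ h ∈ Exc p k w δ β₀ N) ⊆
      (Finset.Ico β₀ (β₀ + N)).biUnion fun β => (range N).filter fun h => h ∈ P ∧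
        ENNReal.ofReal (Real.exp (-(δ ^ 2 / 16) * β)) < mB p k w δ β N h := by
    intro h hh
    rw [mem_filter] at hh
    obtain ⟨h1, h0, β, h2, h3⟩ := hh
    rw [mem_biUnion]
    refine ⟨β, ?_, mem_filter.2 ⟨h1, h0, h3⟩⟩
    rw [mem_Ico]
    refine ⟨h2, ?_⟩
    by_contra hcon
    rw [mB_zero hp (show N ≤ β by omega)] at h3
    simp at h3
  have h1 : (((range N).filter fun h => h ∈ P ∧ h ∈ Exc p k w δ β₀ N).card : ℝ) ≤
      ∑ β ∈ Finset.Ico β₀ (β₀ + N), (((range N).filter fun h => h ∈ P ∧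
        ENNReal.ofReal (Real.exp (-(δ ^ 2 / 16) * β)) < mB p k w δ β N h).card : ℝ) := by
    exact_mod_cast (card_le_card hsub).trans card_biUnion_le
  have hGN := hG N
  have hterm : ∀ β ∈ Finset.Ico β₀ (β₀ + N), (((range N).filter fun h => h ∈ P ∧
        ENNReal.ofReal (Real.exp (-(δ ^ 2 / 16) * β)) < mB p k w δ β N h).card : ℝ) ≤
        (4 * K * cP p * (p : ℝ) ^ k) * G N * (A * θ ^ β) := by
    intro β _
    refine (markov hp hw hδ.le β N hK hGN hP).trans ?_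
    rw [hθ2]
    exact mul_le_mul_of_nonneg_left (hA β) (by positivity)
  refine h1.trans ((sum_le_sum hterm).trans ?_)
  rw [← mul_sum, ← mul_sum]
  calc (4 * K * cP p * (p : ℝ) ^ k) * G N * (A * ∑ β ∈ Finset.Ico β₀ (β₀ + N), θ ^ β) ≤
        (4 * K * cP p * (p : ℝ) ^ k) * G N * (A * (θ ^ β₀ / (1 - θ))) := by
        apply mul_le_mul_of_nonneg_left _ (by positivity)
        exact mul_le_mul_of_nonneg_left (UQ.geom_tail hθ0 hθ1 β₀ N) hA0
    _ = _ := by ring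

open Classical in
lemma exc_bound {p : ℕ} (hp : 2 ≤ p) {k : ℕ} {w : ℕ → ℝ} (hw : Norm p k w) {δ ε : ℝ} (hδ : 0 < δ)
    (hε : 0 < ε) {P : Set ℕ} {G : ℕ → ℝ} {K : ℝ} {e : ℕ} (hK : 0 ≤ K) (hG : ∀ N, 0 ≤ G N)
    (hP : BT P G K e) {η : ℝ} (hη : 0 < η) : ∃ β₀ : ℕ, Level p k δ ε β₀ ∧ ∀ N : ℕ,
      (((range N).filter fun h => h ∈ P ∧ h ∈ Exc p k w δ β₀ N).card : ℝ) ≤ η * G N := by
  have hd : 0 < δ ^ 2 := by positivity
  obtain ⟨A, hA0, hA⟩ := exists_pol hp e (Real.exp_pos (-(δ ^ 2 / 32)))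
    (Real.exp_lt_one_iff.2 (by linarith))
  have e1 := tends (Real.exp_pos (-(δ ^ 2 / 32))) (Real.exp_lt_one_iff.2 (by linarith))
    (4 * K * cP p * (p : ℝ) ^ k * A) hη
  have e2 := tends (Real.exp_pos (-ε)) (Real.exp_lt_one_iff.2 (by linarith)) ((p : ℝ) ^ k)
    (by norm_num : (0 : ℝ) < 1 / 4)
  have e3 := tends (Real.exp_pos (-(δ ^ 2 / 32))) (Real.exp_lt_one_iff.2 (by linarith))
    (Real.exp (δ ^ 2 / 32)) (by norm_num : (0 : ℝ) < 1 / 4)
  have t2 : Tendsto (fun b : ℕ => δ * (b : ℝ)) atTop atTop :=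
    tendsto_natCast_atTop_atTop.const_mul_atTop hδ
  have e4 := t2.eventually_ge_atTop (2 * Real.pi)
  obtain ⟨b, ⟨⟨h1, h2⟩, h3⟩, h4, h5⟩ :=
    (((e1.and e2).and e3).and (e4.and (eventually_ge_atTop 1))).exists
  refine ⟨b, ⟨h5, h4, h2, h3⟩, fun N => ?_⟩
  exact (exc_card_le hp hw hK hG hP hδ hA b N).trans (mul_le_mul_of_nonneg_right h1 (hG N))

open Classical in
lemma es_bound {p k : ℕ} {w : ℕ → ℝ} {δ : ℝ} {β₀ : ℕ} {P : Set ℕ} {G : ℕ → ℝ} {η K : ℝ}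
    (hη : 0 ≤ η) (hG2 : ∀ N : ℕ, 1 ≤ N → ∑ i ∈ range (Nat.log 2 N + 1), G (2 ^ (i + 1)) ≤ K * G N)
    (H : ∀ N : ℕ, (((range N).filter (fun h => h ∈ P ∧ h ∈ Exc p k w δ β₀ N)).card : ℝ) ≤ η * G N)
    (N : ℕ) (hN : 1 ≤ N) :
    (((range N).filter (fun h => h ∈ P ∧ h ∈ ES p k w δ β₀)).card : ℝ) ≤ η * (K * G N) := by
  have hsub : (range N).filter (fun h => h ∈ P ∧ h ∈ ES p k w δ β₀) ⊆
      (range (Nat.log 2 N + 1)).biUnion fun i =>
      (range (2 ^ (i + 1))).filter (fun h => h ∈ P ∧ h ∈ Exc p k w δ β₀ (2 ^ (i + 1))) := by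
    intro h hh
    rw [mem_filter, mem_range] at hh
    rw [mem_biUnion]
    refine ⟨Nat.log 2 h, ?_, ?_⟩
    · rw [mem_range]
      have := Nat.log_mono_right (b := 2) hh.1.le
      omega
    · rw [mem_filter, mem_range]
      have e1 : nx h = 2 ^ (Nat.log 2 h + 1) := rfl
      have h3 := mem_ES.1 hh.2.2
      have h4 := lt_nx h
      rw [e1] at h3 h4
      exact ⟨h4, hh.2.1, h3⟩
  have h1 : (((range N).filter (fun h => h ∈ P ∧ h ∈ ES p k w δ β₀)).card : ℝ) ≤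
      ∑ i ∈ range (Nat.log 2 N + 1),
        (((range (2 ^ (i + 1))).filter (fun h => h ∈ P ∧ h ∈ Exc p k w δ β₀ (2 ^ (i + 1)))).card : ℝ) := by
    exact_mod_cast (card_le_card hsub).trans card_biUnion_le
  refine h1.trans ((sum_le_sum fun i _ => H _).trans ?_)
  rw [← mul_sum]
  exact mul_le_mul_of_nonneg_left (hG2 N hN) hη

end Pool.Agent.TH463.UR
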