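import Pool.Agent.TH463.UR.Main

/-!
Universal sets of primes for the measures invariant under multiplication by `p`: all but a proportion
`η` of the primes `ℓ` move all the atomless measures invariant under `x ↦ p x`, for all `p ≥ 2` at
once, and all the measures absolutely continuous with respect to them, to Lebesgue measure as `ℓ`
tends to infinity. Every infinite set of such primes is rigid together with any `p`.
-/

set_option autoImplicit false

open MeasureTheory Filter Topology
open scoped ENNReal

namespace Pool.Agent.TH463.UR.Final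

/-- **Universal sets of primes.** For every `η > 0` there is one set `C` of primes, missing at most
the proportion `η` of the primes below `N` for every `N`, such that for every integer `p ≥ 2` (for
instance `p = 2`) and every atomless probability measure `μ` on the circle invariant under
`x ↦ p x` (no assumption on the entropy, no ergodicity):

1. for every probability measure `ν` absolutely continuous with respect to `μ`, the images of `ν`
   under `x ↦ c x` converge weakly to Lebesgue measure as `c → ∞` in `C`;
2. for every infinite subset `S` of `C`, however sparse, and `μ`-almost every `x`, the set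
   `{c x : c ∈ S}` is dense in the circle;
3. for every infinite subset `S` of `C` and every probability measure `ν` invariant under `x ↦ c x`
   for all `c` in `S`: if `ν` is not singular with respect to `μ` then `ν ≥ κ λ` for some `κ > 0`,
   `λ` the Lebesgue measure, and if `ν` is absolutely continuous with respect to `μ` (for instance
   `ν = μ`) then `ν` is Lebesgue measure. -/
theorem result (η : ℝ) (hη : 0 < η) : ∃ C : Set ℕ, (∀ c ∈ C, c.Prime) ∧
    (∀ N : ℕ, (Nat.card {c : ℕ | c < N ∧ c.Prime ∧ c ∉ C} : ℝ) ≤
      η * Nat.card {c : ℕ | c < N ∧ c.Prime}) ∧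
    ∀ p : ℕ, 2 ≤ p → ∀ μ : Measure UnitAddCircle, IsProbabilityMeasure μ →
      MeasurePreserving (fun x : UnitAddCircle => p • x) μ μ → (∀ x, μ {x} = 0) →
      (∀ ν : Measure UnitAddCircle, IsProbabilityMeasure ν → ν ≪ μ → ∀ f : C(UnitAddCircle, ℝ),
        Tendsto (fun c : ℕ => ∫ x, f (c • x) ∂ν) (atTop ⊓ 𝓟 C) (𝓝 (∫ x, f x))) ∧
      ∀ S : Set ℕ, S ⊆ C → S.Infinite →
        (∀ᵐ x ∂μ, Dense {y : UnitAddCircle | ∃ c ∈ S, y = c • x}) ∧
        ∀ ν : Measure UnitAddCircle, IsProbabilityMeasure ν →
          (∀ c ∈ S, MeasurePreserving (fun x : UnitAddCircle => c • x) ν ν) →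
          (¬ ν ⟂ₘ μ → ∃ κ : ℝ≥0∞, 0 < κ ∧ κ • (volume : Measure UnitAddCircle) ≤ ν) ∧
          (ν ≪ μ → ν = volume) := by
  obtain ⟨C, h1, h2, h3⟩ := TH463.UR.primes hη
  refine ⟨C, h1, h2, fun p hp μ hμp hμ hat => ⟨h3 p hp μ hμp hμ hat, fun S hSC hS => ?_⟩⟩
  exact TH463.UR.consequences (h3 p hp μ hμp hμ hat) hSC hS

end Pool.Agent.TH463.UR.Final
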