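import Pool.Agent.TH463.UR.Shift
import Pool.Agent.Helper602.MK.J3

/-!
The set of the primes has an upper bound of Brun–Titchmarsh type.
-/

set_option autoImplicit false

open Finset Filter Topology

namespace Pool.Agent.TH463.UR

/-- the majorant for the primes -/
noncomputable def GP (N : ℕ) : ℝ := N / (1 + Real.log N)

lemma one_le_log (N : ℕ) : (1 : ℝ) ≤ 1 + Real.log N := by
  have := Real.log_natCast_nonneg N
  linarith

lemma GP_nonneg (N : ℕ) : 0 ≤ GP N := by
  unfold GP
  have := one_le_log N
  positivity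

lemma GP_mono {M N : ℕ} (hM : 1 ≤ M) (h : M ≤ N) : GP M ≤ GP N := by
  unfold GP
  have h1 := one_le_log M
  have h2 := one_le_log N
  have hM0 : (0 : ℝ) < M := by exact_mod_cast hM
  have hMN : (M : ℝ) ≤ N := by exact_mod_cast h
  have hN0 : (0 : ℝ) < N := by linarith
  rw [div_le_div_iff₀ (by linarith) (by linarith)]
  have h3 : Real.log N = Real.log M + Real.log (N / M) := by
    rw [Real.log_div hN0.ne' hM0.ne']
    ring
  have h4 : Real.log ((N : ℝ) / M) ≤ N / M - 1 := Real.log_le_sub_one_of_pos (by positivity)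
  have h5 : (M : ℝ) * Real.log (N / M) ≤ N - M := by
    have h6 := mul_le_mul_of_nonneg_left h4 hM0.le
    have h7 : (M : ℝ) * (N / M - 1) = N - M := by
      field_simp
    linarith
  rw [h3]
  have h6 := Real.log_natCast_nonneg M
  nlinarith [mul_nonneg (sub_nonneg.2 hMN) h6]

lemma GP_mul (A : ℕ) {M N : ℕ} (hN : 1 ≤ N) (h : M ≤ A * N) : GP M ≤ ((A : ℝ) + 1) * GP N := by
  have hG := GP_nonneg N
  have hA : (0 : ℝ) ≤ A := Nat.cast_nonneg A
  rcases Nat.eq_zero_or_pos M with hM | hM
  · rw [hM]
    unfold GP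
    have := one_le_log N
    simp only [Nat.cast_zero, zero_div]
    positivity
  rcases le_total M N with h1 | h1
  · have h2 := GP_mono hM h1
    nlinarith
  · have h2 := one_le_log M
    have h3 := one_le_log N
    have h4 : (M : ℝ) ≤ A * N := by exact_mod_cast h
    have h5 : Real.log N ≤ Real.log M := Real.log_le_log (by exact_mod_cast hN) (by exact_mod_cast h1)
    have h6 : GP M ≤ A * GP N := by
      unfold GP
      rw [← mul_div_assoc]
      exact div_le_div₀ (by positivity) h4 (by linarith) (by linarith)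
    linarith

lemma GP_sum (I : ℕ) : ∑ i ∈ range (I + 1), GP (2 ^ (i + 1)) ≤ 4 * GP (2 ^ (I + 1)) := by
  have hL0 : 0 < Real.log 2 := Real.log_pos (by norm_num)
  have hL1 : Real.log 2 ≤ 1 := by
    have := Real.log_two_lt_d9
    linarith
  have e : ∀ i : ℕ, GP (2 ^ (i + 1)) = 2 ^ (i + 1) / (1 + (i + 1) * Real.log 2) := by
    intro i
    unfold GP
    push_cast
    rw [Real.log_pow]
    push_cast
    ring
  induction I with
  | zero =>
    rw [zero_add, sum_range_one]
    have := GP_nonneg (2 ^ (0 + 1))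
    linarith
  | succ I ih =>
    rw [sum_range_succ]
    have h1 : GP (2 ^ (I + 1)) ≤ 3 / 4 * GP (2 ^ (I + 1 + 1)) := by
      rw [e I, e (I + 1)]
      push_cast
      have hp : (0 : ℝ) < 2 ^ I := by positivity
      have hI : (0 : ℝ) ≤ I := Nat.cast_nonneg I
      have hIL : 0 ≤ (I : ℝ) * Real.log 2 := by positivity
      rw [← mul_div_assoc, div_le_div_iff₀ (by positivity) (by positivity)]
      have h2 : (2 : ℝ) ^ (I + 1) = 2 * 2 ^ I := by ring
      have h3 : (2 : ℝ) ^ (I + 1 + 1) = 4 * 2 ^ I := by ring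
      rw [h2, h3]
      have h4 : 2 * (1 + ((I : ℝ) + 1 + 1) * Real.log 2) ≤ 3 * (1 + ((I : ℝ) + 1) * Real.log 2) := by
        nlinarith
      nlinarith
    linarith

lemma reg_GP : Reg GP where
  nonneg := GP_nonneg
  mul := fun A => ⟨(A : ℝ) + 1, by positivity, fun _ _ hN h => GP_mul A hN h⟩
  sum := by
    refine ⟨12, by norm_num, fun N hN => ?_⟩
    refine (GP_sum _).trans ?_
    have h1 : 2 ^ (Nat.log 2 N + 1) ≤ 2 * N := by
      have := Nat.pow_log_le_self 2 (by omega : N ≠ 0)
      rw [pow_succ]
      omega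
    have h2 := GP_mul 2 hN h1
    push_cast at h2
    linarith

/-! ### the totient -/

lemma prod_le_card (S : Finset ℕ) : (∀ p ∈ S, 2 ≤ p) →
    ∏ p ∈ S, p ≤ (S.card + 1) * ∏ p ∈ S, (p - 1) := by
  induction S using Finset.induction_on_max with
  | empty => simp
  | insert m s hm ih =>
    intro h
    have hms : m ∉ s := fun hcon => lt_irrefl _ (hm m hcon)
    have h1 := ih fun p hp => h p (mem_insert_of_mem hp)
    have hcard : s.card + 1 ≤ m - 1 := by
      have h2 : s ⊆ Finset.Ico 2 m := fun x hx =>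
        mem_Ico.2 ⟨h x (mem_insert_of_mem hx), hm x hx⟩
      have h3 := card_le_card h2
      rw [Nat.card_Ico] at h3
      have h4 := h m (mem_insert_self _ _)
      omega
    obtain ⟨k, hk⟩ : ∃ k, m = k + 1 := ⟨m - 1, by
      have := h m (mem_insert_self _ _)
      omega⟩
    rw [prod_insert hms, prod_insert hms, card_insert_of_notMem hms]
    rw [hk] at hcard ⊢
    simp only [Nat.add_sub_cancel] at hcard ⊢
    calc (k + 1) * ∏ p ∈ s, p ≤ (k + 1) * ((s.card + 1) * ∏ p ∈ s, (p - 1)) :=
          Nat.mul_le_mul_left _ h1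
      _ = ((k + 1) * (s.card + 1)) * ∏ p ∈ s, (p - 1) := by ring
      _ ≤ ((s.card + 1 + 1) * k) * ∏ p ∈ s, (p - 1) := by
        apply Nat.mul_le_mul_right
        nlinarith
      _ = _ := by ring

lemma totient_bound {b : ℕ} (hb : 1 ≤ b) : (b : ℝ) / (Nat.totient b : ℝ) ≤ 2 * (1 + Real.log b) := by
  have hb0 : b ≠ 0 := by omega
  have hφ : 0 < Nat.totient b := Nat.totient_pos.2 hb
  have hφR : (0 : ℝ) < Nat.totient b := by exact_mod_cast hφ
  have h1 := Nat.totient_mul_prod_primeFactors b
  have h2 := prod_le_card b.primeFactors fun p hp => (Nat.prime_of_mem_primeFactors hp).two_le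
  have hpos : 0 < ∏ p ∈ b.primeFactors, (p - 1) := by
    apply prod_pos
    intro p hp
    have := (Nat.prime_of_mem_primeFactors hp).two_le
    omega
  have h3 : b ≤ Nat.totient b * (b.primeFactors.card + 1) := by
    apply Nat.le_of_mul_le_mul_right _ hpos
    rw [← h1, mul_assoc]
    exact Nat.mul_le_mul_left _ h2
  have h4 : 2 ^ b.primeFactors.card ≤ b := by
    refine le_trans ?_ (Nat.le_of_dvd hb (Nat.prod_primeFactors_dvd b))
    exact Finset.pow_card_le_prod _ _ _ fun p hp => (Nat.prime_of_mem_primeFactors hp).two_le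
  have h5 : (b.primeFactors.card : ℝ) * Real.log 2 ≤ Real.log b := by
    rw [← Real.log_pow]
    apply Real.log_le_log (by positivity)
    exact_mod_cast h4
  have h6 := Real.log_two_gt_d9
  have hc : (0 : ℝ) ≤ b.primeFactors.card := Nat.cast_nonneg _
  rw [div_le_iff₀ hφR]
  have h7 : (b : ℝ) ≤ Nat.totient b * ((b.primeFactors.card : ℝ) + 1) := by exact_mod_cast h3
  have h8 : (b.primeFactors.card : ℝ) + 1 ≤ 2 * (1 + Real.log b) := by
    nlinarith
  calc (b : ℝ) ≤ Nat.totient b * ((b.primeFactors.card : ℝ) + 1) := h7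
    _ ≤ Nat.totient b * (2 * (1 + Real.log b)) := mul_le_mul_of_nonneg_left h8 hφR.le
    _ = _ := by ring

open Classical in
theorem bt_primes : ∃ K : ℝ, 0 ≤ K ∧ BT {l : ℕ | l.Prime} GP K 1 := by
  obtain ⟨C, hC, hBT⟩ := Pool.Agent.Helper602.MK.N_J3.J3
  refine ⟨16 * C, by linarith, ?_⟩
  intro N b r hb hbN
  rw [card_setOf, pow_one]
  have hb0 : (0 : ℝ) < b := by exact_mod_cast hb
  have hN1 : 1 ≤ N := hb.trans hbN
  have hN0 : (0 : ℝ) < N := by exact_mod_cast hN1
  set M := N / b + 1 with hM
  have hM2 : 2 ≤ M := by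
    have : 1 ≤ N / b := (Nat.one_le_div_iff hb).2 hbN
    omega
  have hcard : ((range N).filter fun h => h ∈ {l : ℕ | l.Prime} ∧ h % b = r).card ≤
      ((range M).filter fun t => (r + t * b).Prime).card := by
    apply card_le_card_of_injOn fun h => h / b
    · intro h hh
      rw [mem_coe, mem_filter, mem_range] at hh ⊢
      obtain ⟨h1, h2, h3⟩ := hh
      refine ⟨?_, ?_⟩
      · have := Nat.div_le_div_right (c := b) h1.le
        simp only
        omega
      · have h4 : r + h / b * b = h := by
          rw [← h3, mul_comm]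
          exact Nat.mod_add_div h b
        rw [h4]
        exact h2
    · intro h hh h' hh' he
      rw [mem_coe, mem_filter] at hh hh'
      have h3 := hh.2.2
      have h3' := hh'.2.2
      simp only at he
      rw [← Nat.div_add_mod h b, ← Nat.div_add_mod h' b, h3, h3', he]
  have hMle : (M : ℝ) ≤ 2 * (N / b) := by
    have h1 : ((N / b : ℕ) : ℝ) ≤ N / b := Nat.cast_div_le
    have h2 : (1 : ℝ) ≤ N / b := by
      rw [le_div_iff₀ hb0, one_mul]
      exact_mod_cast hbN
    rw [hM]
    push_cast
    linarith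
  have hMge : (N : ℝ) / b ≤ M := by
    rw [div_le_iff₀ hb0, hM]
    have h1 : N < b * (N / b + 1) := Nat.lt_mul_div_succ N hb
    have h2 : (N : ℝ) < b * ((N / b + 1 : ℕ) : ℝ) := by exact_mod_cast h1
    linarith
  have hlogb := one_le_log b
  have hlogN := one_le_log N
  have hcardR : (((range N).filter fun h => h ∈ {l : ℕ | l.Prime} ∧ h % b = r).card : ℝ) ≤
      (((range M).filter fun t => (r + t * b).Prime).card : ℝ) := by exact_mod_cast hcard
  by_cases hcase : b ^ 2 ≤ N ∧ 4 ≤ N
  · obtain ⟨hb2, hN4⟩ := hcase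
    have h1 := hBT r b M hb hM2
    have h2 := totient_bound hb
    have hlog4 : 1 ≤ Real.log N := by
      have h3 : Real.log 4 ≤ Real.log N := Real.log_le_log (by norm_num) (by exact_mod_cast hN4)
      have h4 : Real.log 4 = 2 * Real.log 2 := by
        rw [show (4 : ℝ) = 2 ^ 2 by norm_num, Real.log_pow]
        norm_num
      have := Real.log_two_gt_d9
      linarith
    have hlogM : Real.log N / 2 ≤ Real.log M := by
      have h3 : (N : ℝ) ≤ (M : ℝ) ^ 2 := by
        have h4 : (b : ℝ) ^ 2 ≤ N := by exact_mod_cast hb2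
        have h5 : (N : ℝ) ≤ (N / b) ^ 2 := by
          rw [div_pow, le_div_iff₀ (by positivity)]
          nlinarith
        have h6 : (0 : ℝ) ≤ N / b := by positivity
        nlinarith
      have h4 := Real.log_le_log hN0 h3
      rw [Real.log_pow] at h4
      push_cast at h4
      linarith
    have hlogM0 : 0 < Real.log M := by linarith
    refine hcardR.trans (h1.trans ?_)
    unfold GP
    have h3 : C * ((b : ℝ) / (Nat.totient b : ℝ)) * M / Real.log M ≤
        C * (2 * (1 + Real.log b)) * (2 * (N / b)) / (Real.log N / 2) := by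
      apply div_le_div₀ (by positivity) _ (by linarith) hlogM
      apply mul_le_mul _ hMle (by positivity) (by positivity)
      exact mul_le_mul_of_nonneg_left h2 (by linarith)
    refine h3.trans ?_
    have h4 : 1 / Real.log N ≤ 2 / (1 + Real.log N) := by
      rw [div_le_div_iff₀ (by linarith) (by linarith)]
      linarith
    calc C * (2 * (1 + Real.log b)) * (2 * (N / b)) / (Real.log N / 2) =
          (8 * C * (1 + Real.log b) * (N / b)) * (1 / Real.log N) := by
          field_simp
          ring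
      _ ≤ (8 * C * (1 + Real.log b) * (N / b)) * (2 / (1 + Real.log N)) :=
          mul_le_mul_of_nonneg_left h4 (by positivity)
      _ = _ := by
          field_simp
          ring
  · have h1 : 1 + Real.log N ≤ 4 * (1 + Real.log b) := by
      rw [not_and_or] at hcase
      rcases hcase with h2 | h2
      · have h3 : (N : ℝ) ≤ (b : ℝ) ^ 2 := by exact_mod_cast (not_le.1 h2).le
        have h4 := Real.log_le_log hN0 h3
        rw [Real.log_pow] at h4
        push_cast at h4
        linarith
      · have h3 : (N : ℝ) ≤ 4 := by exact_mod_cast (not_le.1 h2).le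
        have h4 := Real.log_le_log hN0 h3
        have h5 : Real.log 4 = 2 * Real.log 2 := by
          rw [show (4 : ℝ) = 2 ^ 2 by norm_num, Real.log_pow]
          norm_num
        have := Real.log_two_lt_d9
        linarith
    have h2 : (((range M).filter fun t => (r + t * b).Prime).card : ℝ) ≤ M := by
      have := card_filter_le (range M) fun t => (r + t * b).Prime
      rw [card_range] at this
      exact_mod_cast this
    refine hcardR.trans (h2.trans (hMle.trans ?_))
    unfold GP
    rw [show 16 * C * (1 + Real.log b) * (N / (1 + Real.log N)) / b =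
      (N / b) * (16 * C * (1 + Real.log b) / (1 + Real.log N)) by field_simp, mul_comm]
    apply mul_le_mul_of_nonneg_left _ (by positivity)
    rw [le_div_iff₀ (by linarith)]
    nlinarith

/-- the majorant is at most a constant times the number of primes -/
lemma GP_le_count {N : ℕ} (hN : 3 ≤ N) : GP N ≤ 20 * Nat.card {l : ℕ | l < N ∧ l.Prime} := by
  have h1 := Chebyshev.pi_ge (N - 1)
  have e1 : Nat.card {l : ℕ | l < N ∧ l.Prime} = Nat.primeCounting (N - 1) := by
    rw [card_setOf, Nat.primeCounting, Nat.sub_add_cancel (by omega : 1 ≤ N), Nat.primeCounting',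
      Nat.count_eq_card_filter_range]
  rw [e1]
  have hN3 : (3 : ℝ) ≤ N := by exact_mod_cast hN
  have e2 : ((N - 1 : ℕ) : ℝ) = (N : ℝ) - 1 := by
    rw [Nat.cast_sub (by omega)]
    simp
  rw [e2] at h1
  have hL := Real.log_two_gt_d9
  have hL' := Real.log_two_lt_d9
  have h2 : Real.log N ≤ Real.log 3 + (N / 3 - 1) := by
    have h3 : Real.log N = Real.log 3 + Real.log (N / 3) := by
      rw [Real.log_div (by linarith) (by norm_num)]
      ring
    have h4 : Real.log ((N : ℝ) / 3) ≤ N / 3 - 1 := Real.log_le_sub_one_of_pos (by positivity)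
    linarith
  have h3 : Real.log 3 ≤ Real.log 2 + 1 / 2 := by
    have h4 : Real.log 3 = Real.log 2 + Real.log (3 / 2) := by
      rw [Real.log_div (by norm_num) (by norm_num)]
      ring
    have h5 : Real.log (3 / 2 : ℝ) ≤ 3 / 2 - 1 := Real.log_le_sub_one_of_pos (by norm_num)
    linarith
  have h4 : (N : ℝ) / 20 ≤ ((N : ℝ) - 1) * Real.log 2 - Real.log ((N : ℝ) - 1 + 1) := by
    rw [sub_add_cancel]
    nlinarith
  have hlog0 : 0 < Real.log ((N : ℝ) - 1) := Real.log_pos (by linarith)
  have hlog1 : Real.log ((N : ℝ) - 1) ≤ 1 + Real.log N := by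
    have := Real.log_le_log (by linarith : (0 : ℝ) < N - 1) (by linarith : (N : ℝ) - 1 ≤ N)
    linarith
  have h5 : ((N : ℝ) / 20) / (1 + Real.log N) ≤
      (((N : ℝ) - 1) * Real.log 2 - Real.log ((N : ℝ) - 1 + 1)) / Real.log ((N : ℝ) - 1) := by
    apply div_le_div₀ _ h4 hlog0 hlog1
    have : (0 : ℝ) ≤ N / 20 := by positivity
    linarith
  have h6 := h5.trans h1
  unfold GP
  have h7 : (N : ℝ) / (1 + Real.log N) = 20 * ((N / 20) / (1 + Real.log N)) := by ring
  rw [h7]
  linarith

end Pool.Agent.TH463.UR
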