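import Pool.Agent.TH463.UR.Univ
import Pool.Agent.TH463.UR.Dense
import Pool.Agent.TH463.UR.Primes

/-!
Universal sets of multipliers inside the primes, and inside any set with an upper bound of
Brun–Titchmarsh type.
-/

set_option autoImplicit false

open Finset Filter Topology MeasureTheory
open scoped ENNReal

namespace Pool.Agent.TH463.UR

open Pool.Agent.H769R3 (X)

theorem mixing_of_set {P : Set ℕ} {G : ℕ → ℝ} {K : ℝ} {e : ℕ} (hG : Reg G) (hK : 0 ≤ K)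
    (hP : BT P G K e) {η : ℝ} (hη : 0 < η) : ∃ C : Set ℕ, C ⊆ P ∧
    (∀ N : ℕ, (Nat.card {c : ℕ | c < N ∧ c ∈ P ∧ c ∉ C} : ℝ) ≤ η * G N) ∧
    ∀ p : ℕ, 2 ≤ p → ∀ μ : Measure X, IsProbabilityMeasure μ →
      MeasurePreserving (fun x : X => p • x) μ μ → (∀ x, μ {x} = 0) → Mixing C μ := by
  classical
  obtain ⟨C, β, h0, h1, h2⟩ := exists_set hG hK hP hη
  refine ⟨C, h0, fun N => ?_, ?_⟩
  · rw [card_setOf]
    refine le_trans (le_of_eq ?_) (h1 N)
    congr!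
  · intro p hp μ hμp hμ hat ν hν hac f
    exact equi_ac (fun a t => coeff_tendsto h2 hp hμ hat a t) hac f

theorem consequences {C : Set ℕ} {μ : Measure X} [IsProbabilityMeasure μ] (h : Mixing C μ)
    {S : Set ℕ} (hSC : S ⊆ C) (hS : S.Infinite) :
    (∀ᵐ x ∂μ, Dense {y : X | ∃ c ∈ S, y = c • x}) ∧
    ∀ ν : Measure X, IsProbabilityMeasure ν →
      (∀ c ∈ S, MeasurePreserving (fun x : X => c • x) ν ν) →
      (¬ ν ⟂ₘ μ → ∃ κ : ℝ≥0∞, 0 < κ ∧ κ • (volume : Measure X) ≤ ν) ∧ (ν ≪ μ → ν = volume) := by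
  refine ⟨ae_dense hS (h.mono hSC), fun ν hν hinv => ⟨dominate hS (h.mono hSC) hinv, fun hac => ?_⟩⟩
  exact UQ.eq_volume hS hinv fun f => h.mono hSC ν hν hac f

/-- **Universal sets of primes.** -/
theorem primes {η : ℝ} (hη : 0 < η) : ∃ C : Set ℕ, (∀ c ∈ C, c.Prime) ∧
    (∀ N : ℕ, (Nat.card {c : ℕ | c < N ∧ c.Prime ∧ c ∉ C} : ℝ) ≤
      η * Nat.card {c : ℕ | c < N ∧ c.Prime}) ∧
    ∀ p : ℕ, 2 ≤ p → ∀ μ : Measure X, IsProbabilityMeasure μ →
      MeasurePreserving (fun x : X => p • x) μ μ → (∀ x, μ {x} = 0) → Mixing C μ := by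
  obtain ⟨K, hK, hP⟩ := bt_primes
  obtain ⟨C, h0, h1, h2⟩ := mixing_of_set reg_GP hK hP (show 0 < η / 20 by positivity)
  refine ⟨C, fun c hc => h0 hc, fun N => ?_, h2⟩
  rcases lt_or_ge N 3 with hN | hN
  · have : {c : ℕ | c < N ∧ c.Prime ∧ c ∉ C} = ∅ := by
      rw [Set.eq_empty_iff_forall_notMem]
      rintro c ⟨h3, h4, -⟩
      have := h4.two_le
      omega
    rw [this]
    simp only [Nat.card_eq_fintype_card, Fintype.card_of_isEmpty, Nat.cast_zero]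
    positivity
  · refine (h1 N).trans ?_
    have := mul_le_mul_of_nonneg_left (GP_le_count hN) (show 0 ≤ η / 20 by positivity)
    linarith

end Pool.Agent.TH463.UR
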