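import Pool.Agent.TH463.UQ.Equi

/-!
Mixing along a filter of multipliers: from the Fourier coefficients at `b c + t`, `t` an integer, to
the images of all the measures absolutely continuous with respect to a given one.
-/

set_option autoImplicit false

open Finset Filter Topology MeasureTheory
open scoped ENNReal

namespace Pool.Agent.TH463.UR

open Pool.Agent.H769R3 (X)

lemma integrable_cont {E : Type} [NormedAddCommGroup E] (μ : Measure X) [IsFiniteMeasure μ]
    {g : X → E} (hg : Continuous g) : Integrable g μ :=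
  hg.integrable_of_hasCompactSupport (HasCompactSupport.of_compactSpace _)

/-- the correlation with the characters `b c` tends to zero -/
def Mx (l : Filter ℕ) (μ : Measure X) (b : ℤ) (g : X → ℂ) : Prop :=
  Tendsto (fun c : ℕ => ∫ x, (fourier (b * c) x : ℂ) * g x ∂μ) l (𝓝 0)

lemma int_mul {μ : Measure X} {g : X → ℂ} (hg : Integrable g μ) (n : ℤ) :
    Integrable (fun x => (fourier n x : ℂ) * g x) μ := by
  refine hg.bdd_mul (c := 1) (fourier n).continuous.aestronglyMeasurable ?_
  exact Eventually.of_forall fun x => (H769R3.fourier_norm _ x).le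

lemma Mx.add {l : Filter ℕ} {μ : Measure X} {b : ℤ} {g g' : X → ℂ} (hg : Integrable g μ)
    (hg' : Integrable g' μ) (h : Mx l μ b g) (h' : Mx l μ b g') : Mx l μ b (fun x => g x + g' x) := by
  unfold Mx at *
  have h1 := h.add h'
  rw [add_zero] at h1
  refine h1.congr fun c => ?_
  rw [← integral_add (int_mul hg _) (int_mul hg' _)]
  congr 1
  funext x
  ring

lemma Mx.smul {l : Filter ℕ} {μ : Measure X} {b : ℤ} {g : X → ℂ} (z : ℂ)
    (h : Mx l μ b g) : Mx l μ b (fun x => z * g x) := by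
  unfold Mx at *
  have h1 := h.const_mul z
  rw [mul_zero] at h1
  refine h1.congr fun c => ?_
  rw [← integral_const_mul]
  congr 1
  funext x
  ring

lemma Mx.approx {l : Filter ℕ} {μ : Measure X} {b : ℤ} {g : X → ℂ} (hg : Integrable g μ)
    (h : ∀ ε : ℝ, 0 < ε → ∃ g' : X → ℂ, Integrable g' μ ∧ Mx l μ b g' ∧ ∫ x, ‖g x - g' x‖ ∂μ ≤ ε) :
    Mx l μ b g := by
  unfold Mx at *
  rw [Metric.tendsto_nhds]
  intro ε hε
  obtain ⟨g', h1, h2, h3⟩ := h (ε / 2) (by positivity)
  rw [Metric.tendsto_nhds] at h2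
  filter_upwards [h2 (ε / 2) (by positivity)] with c hc
  rw [dist_zero_right] at hc ⊢
  have e : ∫ x, (fourier (b * c) x : ℂ) * g x ∂μ = ∫ x, (fourier (b * c) x : ℂ) * (g x - g' x) ∂μ +
      ∫ x, (fourier (b * c) x : ℂ) * g' x ∂μ := by
    have h5 : Integrable (fun x => (fourier (b * c) x : ℂ) * (g x - g' x)) μ :=
      int_mul (hg.sub h1) _
    rw [← integral_add h5 (int_mul h1 _)]
    congr 1
    funext x
    ring
  rw [e]
  refine (norm_add_le _ _).trans_lt ?_
  have h4 : ‖∫ x, (fourier (b * c) x : ℂ) * (g x - g' x) ∂μ‖ ≤ ε / 2 := by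
    refine (norm_integral_le_integral_norm _).trans (le_trans (le_of_eq ?_) h3)
    congr 1
    funext x
    rw [norm_mul, H769R3.fourier_norm, one_mul]
  linarith

/-- continuous densities -/
lemma mx_cont {l : Filter ℕ} {μ : Measure X} [IsProbabilityMeasure μ] {b : ℤ}
    (h : ∀ t : ℤ, Tendsto (fun c : ℕ => ∫ x, (fourier (b * c + t) x : ℂ) ∂μ) l (𝓝 0))
    (φ : C(X, ℂ)) : Mx l μ b φ := by
  have hspan : ∀ ψ ∈ Submodule.span ℂ (Set.range (@fourier (1 : ℝ))), Mx l μ b (ψ : C(X, ℂ)) := by
    intro ψ hψ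
    induction hψ using Submodule.span_induction with
    | mem ψ hψ =>
      obtain ⟨t, rfl⟩ := hψ
      unfold Mx
      refine (h t).congr fun c => ?_
      congr 1
      funext x
      rw [fourier_add]
    | zero =>
      unfold Mx
      simp only [ContinuousMap.coe_zero, Pi.zero_apply, mul_zero, integral_zero]
      exact tendsto_const_nhds
    | add ψ ψ' _ _ h1 h2 =>
      exact Mx.add (integrable_cont μ ψ.continuous) (integrable_cont μ ψ'.continuous) h1 h2
    | smul z ψ _ h1 => exact Mx.smul z h1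
  apply Mx.approx (integrable_cont μ φ.continuous)
  intro ε hε
  have hmem : φ ∈ (Submodule.span ℂ (Set.range (@fourier (1 : ℝ)))).topologicalClosure := by
    rw [span_fourier_closure_eq_top]
    exact Submodule.mem_top
  have hmem' : φ ∈ closure ((Submodule.span ℂ (Set.range (@fourier (1 : ℝ))) : Submodule ℂ C(X, ℂ)) :
      Set C(X, ℂ)) := hmem
  rw [Metric.mem_closure_iff] at hmem'
  obtain ⟨ψ, hψ, hd⟩ := hmem' ε hε
  refine ⟨ψ, integrable_cont μ ψ.continuous, hspan ψ hψ, ?_⟩
  have h1 : ∀ x, ‖φ x - ψ x‖ ≤ ε := by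
    intro x
    have h2 := (φ - ψ).norm_coe_le_norm x
    rw [dist_eq_norm] at hd
    exact h2.trans hd.le
  have h2 : Integrable (fun x => ‖φ x - ψ x‖) μ :=
    integrable_cont μ ((φ.continuous.sub ψ.continuous).norm)
  refine (integral_mono h2 (integrable_const ε) h1).trans (le_of_eq ?_)
  simp

/-- integrable densities -/
lemma mx_int {l : Filter ℕ} {μ : Measure X} [IsProbabilityMeasure μ] {b : ℤ}
    (h : ∀ t : ℤ, Tendsto (fun c : ℕ => ∫ x, (fourier (b * c + t) x : ℂ) ∂μ) l (𝓝 0))
    {g : X → ℂ} (hg : Integrable g μ) : Mx l μ b g := by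
  apply Mx.approx hg
  intro ε hε
  obtain ⟨φ, h1, h2⟩ := hg.exists_boundedContinuous_integral_sub_le hε
  exact ⟨φ, h2, mx_cont h φ.toContinuousMap, h1⟩

/-- the images of the absolutely continuous measures tend to Lebesgue measure -/
theorem equi_ac {l : Filter ℕ} {μ : Measure X} [IsProbabilityMeasure μ]
    (h : ∀ (a : ℕ) (t : ℤ),
      Tendsto (fun c : ℕ => ∫ x, (fourier (((a : ℤ) + 1) * c + t) x : ℂ) ∂μ) l (𝓝 0))
    {ν : Measure X} [IsProbabilityMeasure ν] (hν : ν ≪ μ) (f : C(X, ℝ)) :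
    Tendsto (fun c : ℕ => ∫ x, f (c • x) ∂ν) l (𝓝 (∫ x, f x)) := by
  have : ν.HaveLebesgueDecomposition μ := Measure.haveLebesgueDecomposition_of_finiteMeasure
  refine UQ.equi (fun a => ?_) f
  have hint : Integrable (fun x => (((ν.rnDeriv μ x).toReal : ℝ) : ℂ)) μ :=
    Measure.integrable_toReal_rnDeriv.ofReal
  have h1 := mx_int (h a) hint
  unfold Mx at h1
  refine h1.congr fun c => ?_
  rw [← integral_rnDeriv_smul hν]
  congr 1
  funext x
  rw [Complex.real_smul, mul_comm]
  congr 2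

end Pool.Agent.TH463.UR
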