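import Pool.Agent.TH463.UR.Exc

/-!
Arithmetic operations on sets with an upper bound of Brun–Titchmarsh type.
-/

set_option autoImplicit false

open Finset Filter Topology

namespace Pool.Agent.TH463.UR

/-- regular majorants -/
structure Reg (G : ℕ → ℝ) : Prop where
  nonneg : ∀ N, 0 ≤ G N
  mul : ∀ A : ℕ, ∃ K : ℝ, 0 ≤ K ∧ ∀ N M : ℕ, 1 ≤ N → M ≤ A * N → G M ≤ K * G N
  sum : ∃ K : ℝ, 0 ≤ K ∧ ∀ N : ℕ, 1 ≤ N → ∑ i ∈ range (Nat.log 2 N + 1), G (2 ^ (i + 1)) ≤ K * G N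

/-- the affine image of a set -/
def sh (P : Set ℕ) (a : ℕ) (t : ℤ) : Set ℕ := {h | ∃ l ∈ P, (h : ℤ) = ((a : ℤ) + 1) * l + t}

lemma sh_eq {a : ℕ} {t : ℤ} {h l : ℕ} (e : (h : ℤ) = ((a : ℤ) + 1) * l + t) :
    (((h : ℤ) - t) / ((a : ℤ) + 1)).toNat = l := by
  have h1 : (h : ℤ) - t = ((a : ℤ) + 1) * l := by rw [e]; ring
  rw [h1, Int.mul_ediv_cancel_left _ (by positivity)]
  simp

open Classical in
lemma bt_sh {P : Set ℕ} {G : ℕ → ℝ} {K : ℝ} {e : ℕ} (hG : Reg G) (hK : 0 ≤ K) (hP : BT P G K e)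
    (a : ℕ) (t : ℤ) : ∃ K' : ℝ, 0 ≤ K' ∧ BT (sh P a t) G K' e := by
  obtain ⟨K₂, hK₂, hG₂⟩ := hG.mul (1 + t.natAbs)
  refine ⟨K * K₂ * ((a : ℝ) + 1), by positivity, ?_⟩
  intro N b r hb hbN
  have hlogb : 0 ≤ Real.log b := Real.log_nonneg (by exact_mod_cast hb)
  have hb0 : (0 : ℝ) < b := by exact_mod_cast hb
  have hGN := hG.nonneg N
  rw [card_setOf]
  set T := (range N).filter fun h => h ∈ sh P a t ∧ h % b = r with hT
  rcases T.eq_empty_or_nonempty with hemp | ⟨h₀, hh₀⟩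
  · rw [hemp]
    simp only [card_empty, Nat.cast_zero]
    positivity
  set g := Nat.gcd b (a + 1) with hg
  have hg0 : 0 < g := Nat.gcd_pos_of_pos_left _ hb
  set b' := b / g with hb'
  have hgb : g ∣ b := Nat.gcd_dvd_left _ _
  have hb'0 : 1 ≤ b' := Nat.div_pos (Nat.le_of_dvd hb hgb) hg0
  have hb'b : b' ≤ b := Nat.div_le_self _ _
  have hbb' : b = g * b' := (Nat.mul_div_cancel' hgb).symm
  have hga : g ≤ a + 1 := Nat.le_of_dvd (Nat.succ_pos a) (Nat.gcd_dvd_right _ _)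
  have hN1 : 1 ≤ N := hb.trans hbN
  set f : ℕ → ℕ := fun h => (((h : ℤ) - t) / ((a : ℤ) + 1)).toNat with hf
  have hfe : ∀ h ∈ T, f h ∈ P ∧ (h : ℤ) = ((a : ℤ) + 1) * (f h) + t := by
    intro h hh
    rw [hT, mem_filter] at hh
    obtain ⟨-, ⟨l, hl, e⟩, -⟩ := hh
    have h1 : f h = l := sh_eq e
    rw [h1]
    exact ⟨hl, e⟩
  have hcong : ∀ h ∈ T, f h % b' = f h₀ % b' := by
    intro h hh
    have e1 := (hfe h hh).2
    have e0 := (hfe h₀ hh₀).2
    have m1 := (mem_filter.1 hh).2.2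
    have m0 := (mem_filter.1 hh₀).2.2
    have h1 : (b : ℤ) ∣ ((a : ℤ) + 1) * ((f h : ℤ) - f h₀) := by
      have h2 : ((a : ℤ) + 1) * ((f h : ℤ) - f h₀) = (h : ℤ) - h₀ := by
        rw [e1, e0]; ring
      rw [h2]
      exact (Int.modEq_iff_dvd.1 ((Int.natCast_modEq_iff.2 (m0.trans m1.symm : h₀ ≡ h [MOD b]))))
    have h2 : (b' : ℤ) ∣ ((f h : ℤ) - f h₀) := by
      have hcop : Nat.Coprime b' ((a + 1) / g) := by
        rw [hb', hg]
        exact Nat.coprime_div_gcd_div_gcd hg0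
      have h3 : ((a : ℤ) + 1) = (g : ℤ) * (((a + 1) / g : ℕ) : ℤ) := by
        have : a + 1 = g * ((a + 1) / g) := (Nat.mul_div_cancel' (Nat.gcd_dvd_right _ _)).symm
        exact_mod_cast this
      have h4 : (b : ℤ) = (g : ℤ) * b' := by exact_mod_cast hbb'
      rw [h3, h4, mul_assoc] at h1
      have h5 := Int.dvd_of_mul_dvd_mul_left (by exact_mod_cast hg0.ne' : (g : ℤ) ≠ 0) h1
      exact (Nat.isCoprime_iff_coprime.2 hcop).dvd_of_dvd_mul_left h5
    have h3 : f h₀ ≡ f h [MOD b'] := Int.natCast_modEq_iff.1 (Int.modEq_iff_dvd.2 h2)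
    exact h3.symm
  have hcard : T.card ≤ ((range (N + t.natAbs)).filter fun l => l ∈ P ∧ l % b' = f h₀ % b').card := by
    apply card_le_card_of_injOn f
    · intro h hh
      rw [mem_coe, mem_filter, mem_range]
      obtain ⟨h1, h2⟩ := hfe h hh
      have h3 := mem_range.1 (mem_filter.1 hh).1
      refine ⟨?_, h1, hcong h hh⟩
      have h4 : (f h : ℤ) ≤ ((a : ℤ) + 1) * (f h) := by
        have : (0 : ℤ) ≤ (a : ℤ) * (f h) := by positivity
        linarith
      have h5 : -t ≤ (t.natAbs : ℤ) := by omega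
      have h6 : (h : ℤ) < N := by exact_mod_cast h3
      have h7 : (f h : ℤ) < ((N + t.natAbs : ℕ) : ℤ) := by
        push_cast
        push_cast at h5
        linarith
      exact_mod_cast h7
    · intro h hh h' hh' hff
      have e1 := (hfe h hh).2
      have e2 := (hfe h' hh').2
      rw [hff] at e1
      have : (h : ℤ) = h' := by rw [e1, e2]
      exact_mod_cast this
  have h1 := hP (N + t.natAbs) b' (f h₀ % b') hb'0 (hb'b.trans (hbN.trans (Nat.le_add_right _ _)))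
  rw [card_setOf] at h1
  have h2 : (T.card : ℝ) ≤ K * (1 + Real.log b') ^ e * G (N + t.natAbs) / b' := by
    refine le_trans ?_ h1
    exact_mod_cast hcard.trans (le_of_eq (by congr!))
  have h3 : G (N + t.natAbs) ≤ K₂ * G N := by
    apply hG₂ N (N + t.natAbs) hN1
    have : t.natAbs ≤ t.natAbs * N := Nat.le_mul_of_pos_right _ hN1
    linarith
  have hb'R : (1 : ℝ) ≤ b' := by exact_mod_cast hb'0
  have hlogb' : 0 ≤ Real.log b' := Real.log_nonneg hb'R
  have h4 : (1 + Real.log b') ^ e ≤ (1 + Real.log b) ^ e := by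
    apply pow_le_pow_left₀ (by linarith)
    have : Real.log b' ≤ Real.log b := Real.log_le_log (by linarith) (by exact_mod_cast hb'b)
    linarith
  have h5 : (1 : ℝ) / b' ≤ ((a : ℝ) + 1) / b := by
    rw [div_le_div_iff₀ (by linarith) hb0, one_mul]
    have : (b : ℝ) = g * b' := by exact_mod_cast hbb'
    rw [this]
    have hga' : (g : ℝ) ≤ (a : ℝ) + 1 := by exact_mod_cast hga
    exact mul_le_mul_of_nonneg_right hga' (by linarith)
  have hpow : 0 ≤ (1 + Real.log b') ^ e := by positivity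
  calc (T.card : ℝ) ≤ K * (1 + Real.log b') ^ e * G (N + t.natAbs) / b' := h2
    _ = (K * (1 + Real.log b') ^ e * G (N + t.natAbs)) * (1 / b') := by ring
    _ ≤ (K * (1 + Real.log b) ^ e * (K₂ * G N)) * (((a : ℝ) + 1) / b) := by
      apply mul_le_mul _ h5 (by positivity) (by positivity)
      apply mul_le_mul _ h3 (hG.nonneg _) (by positivity)
      exact mul_le_mul_of_nonneg_left h4 hK
    _ = _ := by ring

end Pool.Agent.TH463.UR
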