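import Pool.Agent.TH463.UR.Shift
import Pool.Agent.TH463.UQ.Univ

/-!
The universal subset of a set with an upper bound of Brun–Titchmarsh type.
-/

set_option autoImplicit false

open Finset Filter Topology MeasureTheory
open scoped ENNReal

namespace Pool.Agent.TH463.UR

open Pool.Agent.H769R3 (X rep)
open Pool.Agent.TH463.UP (D Near nx lt_nx)
open Pool.Agent.TH463.UQ (del del_pos Valid Norm Pos wt Exc ES mem_ES Level kap kap_pos AA coeff
  exists_weight near_tendsto)

/-- the indices: the base, the tolerance, the frequency, the shift, and the weight -/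
abbrev Idx : Type := ℕ × ℕ × ℕ × ℤ × ℕ × ℕ × List ℕ

open Classical in
lemma sum_half_le (J : Finset Idx) : ∑ i ∈ J, (1 / 2 : ℝ) ^ (Encodable.encode i + 1) ≤ 1 := by
  have e1 : ∑ i ∈ J, (1 / 2 : ℝ) ^ (Encodable.encode i + 1) =
      ∑ n ∈ J.image Encodable.encode, (1 / 2 : ℝ) ^ (n + 1) := by
    rw [sum_image (Encodable.encode_injective.injOn)]
  have e2 : J.image Encodable.encode ⊆ range ((J.image Encodable.encode).sup id + 1) := by
    intro n hn
    rw [mem_range]
    exact Nat.lt_succ_of_le (le_sup (f := id) hn)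
  rw [e1]
  refine (sum_le_sum_of_subset_of_nonneg e2 fun n _ _ => by positivity).trans ?_
  set T := (J.image Encodable.encode).sup id + 1 with hT
  have h7 : ∑ j ∈ range T, (1 / 2 : ℝ) ^ (j + 1) = (∑ j ∈ range T, (1 / 2 : ℝ) ^ j) * (1 / 2) := by
    rw [sum_mul]
    apply sum_congr rfl
    intro j _
    rw [pow_succ]
  rw [h7, geom_sum_eq (by norm_num)]
  have h8 : (0 : ℝ) ≤ (1 / 2) ^ T := by positivity
  have h9 : ((1 / 2 : ℝ) ^ T - 1) / (1 / 2 - 1) = 2 * (1 - (1 / 2) ^ T) := by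
    field_simp
    ring
  rw [h9]
  linarith

open Classical in
/-- the universal set -/
theorem exists_set {P : Set ℕ} {G : ℕ → ℝ} {K : ℝ} {e : ℕ} (hG : Reg G) (hK : 0 ≤ K)
    (hP : BT P G K e) {η : ℝ} (hη : 0 < η) : ∃ (C : Set ℕ) (β : Idx → ℕ), C ⊆ P ∧
    (∀ N : ℕ, (((range N).filter fun c => c ∈ P ∧ c ∉ C).card : ℝ) ≤ η * G N) ∧
    ∀ (p m a : ℕ) (t : ℤ) (k M : ℕ) (l : List ℕ), Valid p k M l →
      Level p k (del m) (kap (del m) * del m) (β (p, m, a, t, k, M, l)) ∧
      ∀ c ∈ C, 0 ≤ ((a : ℤ) + 1) * c + t → (((a : ℤ) + 1) * c + t).toNat ∉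
        ES p k (wt p M l) (del m) (β (p, m, a, t, k, M, l)) := by
  obtain ⟨K₁, hK₁, hG₁⟩ := hG.sum
  have hmul : ∀ i : Idx, ∃ K₂ : ℝ, 0 ≤ K₂ ∧ ∀ N M : ℕ, 1 ≤ N →
      M ≤ (i.2.2.1 + 1 + i.2.2.2.1.natAbs) * N → G M ≤ K₂ * G N := fun i => hG.mul _
  choose K₂ hK₂ hG₂ using hmul
  have hkey : ∀ i : Idx, ∃ β₀ : ℕ, Valid i.1 i.2.2.2.2.1 i.2.2.2.2.2.1 i.2.2.2.2.2.2 →
      Level i.1 i.2.2.2.2.1 (del i.2.1) (kap (del i.2.1) * del i.2.1) β₀ ∧
      ∀ N : ℕ, (((range N).filter (fun h => h ∈ sh P i.2.2.1 i.2.2.2.1 ∧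
        h ∈ Exc i.1 i.2.2.2.2.1 (wt i.1 i.2.2.2.2.2.1 i.2.2.2.2.2.2)
        (del i.2.1) β₀ N)).card : ℝ) ≤
        (η * (1 / 2) ^ (Encodable.encode i + 1) / (K₁ * K₂ i + 1)) * G N := by
    intro i
    by_cases hv : Valid i.1 i.2.2.2.2.1 i.2.2.2.2.2.1 i.2.2.2.2.2.2
    · obtain ⟨K', hK', hP'⟩ := bt_sh hG hK hP i.2.2.1 i.2.2.2.1
      have hpos : 0 < η * (1 / 2) ^ (Encodable.encode i + 1) / (K₁ * K₂ i + 1) := by
        have := hK₂ i
        positivity
      obtain ⟨β₀, h1, h2⟩ := exc_bound hv.1 hv.2.2 (del_pos i.2.1)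
        (mul_pos (kap_pos (del_pos i.2.1)) (del_pos i.2.1)) hK' hG.nonneg hP' hpos
      exact ⟨β₀, fun _ => ⟨h1, h2⟩⟩
    · exact ⟨0, fun h => absurd h hv⟩
  choose b hb using hkey
  set Q : Idx → ℕ → Prop := fun i c => Valid i.1 i.2.2.2.2.1 i.2.2.2.2.2.1 i.2.2.2.2.2.2 ∧
    0 ≤ ((i.2.2.1 : ℤ) + 1) * c + i.2.2.2.1 ∧
    (((i.2.2.1 : ℤ) + 1) * c + i.2.2.2.1).toNat ∈ ES i.1 i.2.2.2.2.1
      (wt i.1 i.2.2.2.2.2.1 i.2.2.2.2.2.2) (del i.2.1) (b i) with hQ
  refine ⟨{c | c ∈ P ∧ ∀ i, ¬ Q i c}, b, fun c hc => hc.1, ?_, ?_⟩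
  · intro N
    rcases Nat.eq_zero_or_pos N with hN | hN
    · rw [hN]
      simp only [range_zero, filter_empty, card_empty, Nat.cast_zero]
      exact mul_nonneg hη.le (hG.nonneg _)
    set Bad := (range N).filter fun c => c ∈ P ∧ c ∉ {c | c ∈ P ∧ ∀ i, ¬ Q i c} with hBad
    have hex : ∀ c ∈ Bad, ∃ i, Q i c := by
      intro c hc
      obtain ⟨h0, h1⟩ := (mem_filter.1 hc).2
      by_contra hcon
      push Not at hcon
      exact h1 ⟨h0, hcon⟩
    choose! ι hι using hex
    set J : Finset Idx := Bad.image ι with hJ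
    have hsub : Bad ⊆ J.biUnion fun i => (range N).filter fun c => c ∈ P ∧ Q i c := by
      intro c hc
      exact mem_biUnion.2 ⟨ι c, mem_image_of_mem ι hc,
        mem_filter.2 ⟨(mem_filter.1 hc).1, (mem_filter.1 hc).2.1, hι c hc⟩⟩
    have h1 : (Bad.card : ℝ) ≤ ∑ i ∈ J, (((range N).filter fun c => c ∈ P ∧ Q i c).card : ℝ) := by
      exact_mod_cast (card_le_card hsub).trans card_biUnion_le
    have hGN := hG.nonneg N
    have h2 : ∀ i ∈ J, (((range N).filter fun c => c ∈ P ∧ Q i c).card : ℝ) ≤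
        (η * G N) * (1 / 2) ^ (Encodable.encode i + 1) := by
      intro i _
      by_cases hv : Valid i.1 i.2.2.2.2.1 i.2.2.2.2.2.1 i.2.2.2.2.2.2
      · set N' := (i.2.2.1 + 1) * N + i.2.2.2.1.natAbs with hN'
        have hpos : 0 ≤ η * (1 / 2) ^ (Encodable.encode i + 1) / (K₁ * K₂ i + 1) := by
          have := hK₂ i
          positivity
        have hN'1 : 1 ≤ N' := by
          have : N ≤ (i.2.2.1 + 1) * N := Nat.le_mul_of_pos_left _ (Nat.succ_pos _)
          rw [hN']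
          omega
        have h3 := es_bound (P := sh P i.2.2.1 i.2.2.2.1) hpos hG₁ (hb i hv).2 N' hN'1
        have h4 : ((range N).filter fun c => c ∈ P ∧ Q i c).card ≤ ((range N').filter
            (fun h => h ∈ sh P i.2.2.1 i.2.2.2.1 ∧ h ∈ ES i.1 i.2.2.2.2.1
              (wt i.1 i.2.2.2.2.2.1 i.2.2.2.2.2.2) (del i.2.1) (b i))).card := by
          apply card_le_card_of_injOn (fun c : ℕ => (((i.2.2.1 : ℤ) + 1) * c + i.2.2.2.1).toNat)
          · intro c hc
            rw [mem_coe, mem_filter, mem_range] at hc ⊢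
            obtain ⟨hc1, hc2, hc3, hc4, hc5⟩ := hc
            refine ⟨?_, ⟨c, hc2, ?_⟩, hc5⟩
            · have h5 : (((i.2.2.1 : ℤ) + 1) * c + i.2.2.2.1) < (N' : ℤ) := by
                rw [hN']
                push_cast
                have h6 : (c : ℤ) < N := by exact_mod_cast hc1
                have h7 : i.2.2.2.1 ≤ |i.2.2.2.1| := le_abs_self _
                have h8 : ((i.2.2.1 : ℤ) + 1) * c < ((i.2.2.1 : ℤ) + 1) * N := by
                  apply mul_lt_mul_of_pos_left h6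
                  positivity
                linarith
              exact (Int.toNat_lt hc4).2 h5
            · exact Int.toNat_of_nonneg hc4
          · intro c hc c' hc' h
            rw [mem_coe, mem_filter] at hc hc'
            have h5 := Int.toNat_of_nonneg hc.2.2.2.1
            have h6 := Int.toNat_of_nonneg hc'.2.2.2.1
            simp only at h
            rw [h, h6] at h5
            have h7 : ((i.2.2.1 : ℤ) + 1) * c' = ((i.2.2.1 : ℤ) + 1) * c := by linarith
            have h8 : (c' : ℤ) = c := mul_left_cancel₀ (by positivity) h7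
            exact_mod_cast h8.symm
        have h5 : (((range N).filter fun c => c ∈ P ∧ Q i c).card : ℝ) ≤
            (((range N').filter (fun h => h ∈ sh P i.2.2.1 i.2.2.2.1 ∧ h ∈ ES i.1 i.2.2.2.2.1
              (wt i.1 i.2.2.2.2.2.1 i.2.2.2.2.2.2) (del i.2.1) (b i))).card : ℝ) := by
          exact_mod_cast h4
        have h6 : G N' ≤ K₂ i * G N := by
          apply hG₂ i N N' hN
          rw [hN', add_mul (i.2.2.1 + 1) _ N]
          exact Nat.add_le_add_left (Nat.le_mul_of_pos_right _ hN) _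
        have hK₂i := hK₂ i
        refine h5.trans (h3.trans ?_)
        calc η * (1 / 2) ^ (Encodable.encode i + 1) / (K₁ * K₂ i + 1) * (K₁ * G N') ≤
              η * (1 / 2) ^ (Encodable.encode i + 1) / (K₁ * K₂ i + 1) * (K₁ * (K₂ i * G N)) := by
              apply mul_le_mul_of_nonneg_left _ hpos
              exact mul_le_mul_of_nonneg_left h6 hK₁
          _ = (η * G N) * (1 / 2) ^ (Encodable.encode i + 1) * (K₁ * K₂ i / (K₁ * K₂ i + 1)) := by
              ring
          _ ≤ (η * G N) * (1 / 2) ^ (Encodable.encode i + 1) * 1 := by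
              apply mul_le_mul_of_nonneg_left _ (by positivity)
              rw [div_le_one (by positivity)]
              linarith
          _ = _ := mul_one _
      · have : (range N).filter (fun c => c ∈ P ∧ Q i c) = ∅ := by
          rw [filter_eq_empty_iff]
          intro c _ hc
          exact hv hc.2.1
        rw [this]
        simp only [card_empty, Nat.cast_zero]
        positivity
    refine le_trans (le_of_eq (by rw [hBad]; congr!)) (h1.trans ((sum_le_sum h2).trans ?_))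
    rw [← mul_sum]
    calc η * G N * ∑ i ∈ J, (1 / 2 : ℝ) ^ (Encodable.encode i + 1) ≤ η * G N * 1 :=
          mul_le_mul_of_nonneg_left (sum_half_le J) (by positivity)
      _ = η * G N := mul_one _
  · intro p m a t k M l hv
    refine ⟨(hb (p, m, a, t, k, M, l) hv).1, fun c hc h0 hcon =>
      hc.2 (p, m, a, t, k, M, l) ⟨hv, h0, hcon⟩⟩

/-- the Fourier coefficients tend to zero along the universal set -/
theorem coeff_tendsto {C : Set ℕ} {β : Idx → ℕ}
    (hC : ∀ (p m a : ℕ) (t : ℤ) (k M : ℕ) (l : List ℕ), Valid p k M l →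
      Level p k (del m) (kap (del m) * del m) (β (p, m, a, t, k, M, l)) ∧
      ∀ c ∈ C, 0 ≤ ((a : ℤ) + 1) * c + t → (((a : ℤ) + 1) * c + t).toNat ∉
        ES p k (wt p M l) (del m) (β (p, m, a, t, k, M, l)))
    {p : ℕ} (hp : 2 ≤ p) {μ : Measure X} [IsProbabilityMeasure μ]
    (hμ : MeasurePreserving (fun x : X => p • x) μ μ) (hat : ∀ x, μ {x} = 0) (a : ℕ) (t : ℤ) :
    Tendsto (fun c : ℕ => ∫ x, (fourier (((a : ℤ) + 1) * c + t) x : ℂ) ∂μ) (atTop ⊓ 𝓟 C) (𝓝 0) := by
  rw [Metric.tendsto_nhds]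
  intro ε hε
  obtain ⟨m, hm⟩ := exists_nat_one_div_lt (show (0 : ℝ) < ε / 6 by positivity)
  have hδ0 := del_pos m
  have hδ1 : del m < ε / 6 := hm
  have hkap := kap_pos hδ0
  obtain ⟨k, M, l, hw, hwn, hent⟩ := exists_weight hp hμ (mul_pos hkap hδ0)
  obtain ⟨hβ, hgood⟩ := hC p m a t k M l ⟨hp, hw, hwn⟩
  -- the neighbourhoods
  have hge : ∀ c : ℕ, ((c - t.natAbs : ℕ) : ℤ) ≤ (((a : ℤ) + 1) * c + t).toNat := by
    intro c
    have h1 : (0 : ℤ) ≤ (a : ℤ) * c := by positivity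
    have h2 : ((a : ℤ) + 1) * c + t = (a : ℤ) * c + c + t := by ring
    omega
  have hnx : Tendsto (fun c : ℕ => nx (((a : ℤ) + 1) * c + t).toNat) atTop atTop := by
    refine tendsto_atTop_mono (fun c => ?_) (tendsto_sub_atTop_nat t.natAbs)
    have h1 := lt_nx (((a : ℤ) + 1) * c + t).toNat
    have h2 := hge c
    omega
  have h3 := ((near_tendsto hat (p ^ β (p, m, a, t, k, M, l))).comp hnx).const_mul
    (AA p (del m) / kap (del m))
  rw [mul_zero] at h3
  have h4 := h3.eventually (gt_mem_nhds hδ0)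
  rw [eventually_inf_principal]
  filter_upwards [h4, eventually_ge_atTop t.natAbs] with c hc hct hcC
  have h0 : 0 ≤ ((a : ℤ) + 1) * c + t := by
    have h1 : (0 : ℤ) ≤ (a : ℤ) * c := by positivity
    have h2 : ((a : ℤ) + 1) * c + t = (a : ℤ) * c + c + t := by ring
    omega
  have h5 := coeff hp hμ.map_eq hδ0 hw hwn hent hβ (hgood c hcC h0)
  rw [Int.toNat_of_nonneg h0] at h5
  rw [dist_zero_right]
  simp only [Function.comp] at hc
  linarith

end Pool.Agent.TH463.UR
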